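import Pool.Agent.H283.HT.Stm

set_option autoImplicit false

open Filter Topology

namespace Pool.Agent.H764.HTRC

open Pool.Agent.H283.HT

theorem R_cont : Continuous R := by
  unfold R
  fun_prop

theorem R_R (x : P3) : R (R x) = x := by
  simp [R]

theorem R_add_smul (x d : P3) (t : ℝ) : R (x + t • d) = R x + t • R d := by
  unfold R
  ext <;> simp <;> ring

theorem R_interior {K : Set P3} (hK : Body K) {x : P3} (hx : x ∈ interior K) :
    R x ∈ interior K := by
  have h1 : R ⁻¹' interior K ⊆ interior K := by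
    refine interior_maximal ?_ (isOpen_interior.preimage R_cont)
    intro y hy
    have h2 : R y ∈ K := interior_subset hy
    have h3 := hK.sym _ h2
    rwa [R_R] at h3
  apply h1
  show R (R x) ∈ interior K
  rwa [R_R]

theorem small {K : Set P3} {y n : P3} (hy : y ∈ interior K) :
    ∃ e : ℝ, 0 < e ∧ y + e • n ∈ interior K := by
  have h1 : Continuous fun e : ℝ => y + e • n := by fun_prop
  have h2 : ∀ᶠ e : ℝ in 𝓝 0, y + e • n ∈ interior K := by
    refine (h1.tendsto 0).eventually (isOpen_interior.mem_nhds ?_)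
    simpa using hy
  have h3 : ∀ᶠ e : ℝ in 𝓝[>] (0 : ℝ), y + e • n ∈ interior K := nhdsWithin_le_nhds h2
  obtain ⟨e, he, he'⟩ := (h3.and self_mem_nhdsWithin).exists
  exact ⟨e, he', he⟩

theorem ip_add (n x d : P3) (t e : ℝ) :
    ip n (x + t • d + e • n) = ip n x + t * ip n d + e * ip n n := by
  simp only [ip, dt, Prod.fst_add, Prod.snd_add, Prod.smul_fst, Prod.smul_snd, smul_eq_mul]
  ring

theorem ip_pos {n : P3} (hn : n ≠ 0) : 0 < ip n n := by
  unfold ip dt
  by_contra hcon
  apply hn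
  have h1 : n.1.1 = 0 := by nlinarith [sq_nonneg n.1.1, sq_nonneg n.1.2, sq_nonneg n.2]
  have h2 : n.1.2 = 0 := by nlinarith [sq_nonneg n.1.1, sq_nonneg n.1.2, sq_nonneg n.2]
  have h3 : n.2 = 0 := by nlinarith [sq_nonneg n.1.1, sq_nonneg n.1.2, sq_nonneg n.2]
  ext <;> simp [h1, h2, h3]

theorem RC_done (hSH : S_SH) : S_RC := by
  intro K hK
  refine ⟨?_, ?_, ?_, ?_⟩
  · rintro x d ⟨t, ht, h⟩
    refine ⟨t, ht, ?_⟩
    rw [← R_add_smul]
    exact R_interior hK h
  · rintro x₀ x₁ d l hl hl1 hx₁ ⟨t, ht, h⟩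
    refine ⟨(1 - l) * t, mul_pos (by linarith) ht, ?_⟩
    have h1 := hK.conv.combo_interior_self_mem_interior h hx₁ (a := 1 - l) (b := l)
      (by linarith) hl (by ring)
    have h2 : (1 - l) • x₀ + l • x₁ + ((1 - l) * t) • d = (1 - l) • (x₀ + t • d) + l • x₁ := by
      rw [smul_add, smul_smul]
      abel
    rw [h2]
    exact h1
  · rintro x n d hn hn0 ⟨t, ht, h⟩
    obtain ⟨e, he, h1⟩ := small (n := n) h
    have h2 := hn _ (interior_subset h1)
    rw [ip_add] at h2
    have h3 := mul_pos he (ip_pos hn0)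
    by_contra hcon
    have h4 := mul_nonneg ht.le (not_lt.1 hcon)
    linarith
  · intro x hx hx1
    obtain ⟨z, hz⟩ := (hSH K hK).2 _ hx1
    rcases lt_trichotomy x.2 z with h | h | h
    · left
      refine ⟨z - x.2, by linarith, ?_⟩
      have h1 : x + (z - x.2) • (((0 : P2), (1 : ℝ)) : P3) = (x.1, z) := by
        ext <;> simp
      rw [h1]
      exact hz
    · left
      have h1 : x ∈ interior K := by
        have h2 : x = (x.1, z) := by rw [← h]
        rw [h2]
        exact hz
      obtain ⟨e, he, h2⟩ := small (n := (((0 : P2), (1 : ℝ)) : P3)) h1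
      exact ⟨e, he, h2⟩
    · right
      refine ⟨x.2 - z, by linarith, ?_⟩
      have h1 : x + (x.2 - z) • (((0 : P2), (-1 : ℝ)) : P3) = (x.1, z) := by
        ext <;> simp
      rw [h1]
      exact hz

end Pool.Agent.H764.HTRC
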