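import Mathlib

/-!
# Preliminaries on abelianisations of semidirect products and mapping tori
-/

set_option autoImplicit false

namespace Pool.Agent.H764.KS

open Finset

/-- torsion-free (multiplicative) commutative group -/
def TF (A : Type) [CommGroup A] : Prop := ∀ (k : ℕ) (x : A), 0 < k → x ^ k = 1 → x = 1

/-- there is an element of order two -/
def Two (A : Type) [CommGroup A] : Prop := ∃ x : A, x ≠ 1 ∧ x ^ 2 = 1

theorem TF.of_injective {A B : Type} [CommGroup A] [CommGroup B] (f : A →* B)
    (hf : Function.Injective f) (h : TF B) : TF A := by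
  intro k x hk hx
  apply hf
  rw [map_one]
  exact h k (f x) hk (by rw [← map_pow, hx, map_one])

theorem tf_subsingleton {A : Type} [CommGroup A] [Subsingleton A] : TF A :=
  fun _ _ _ _ => Subsingleton.elim _ _

theorem tf_int' : TF (Multiplicative ℤ) := by
  intro k x hk hx
  have : (k : ℤ) * Multiplicative.toAdd x = 0 := by
    have := congrArg Multiplicative.toAdd hx
    simpa using this
  rcases mul_eq_zero.1 this with h | h
  · exact absurd h (by positivity)
  · exact h

theorem tf_int : TF (Abelianization (Multiplicative ℤ)) :=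
  TF.of_injective (Abelianization.equivOfComm (H := Multiplicative ℤ)).symm.toMonoidHom
    (Abelianization.equivOfComm (H := Multiplicative ℤ)).symm.injective tf_int'

theorem TF.prod {G H : Type} [Group G] [Group H] (hG : TF (Abelianization G))
    (hH : TF (Abelianization H)) : TF (Abelianization (G × H)) := by
  intro k x hk hx
  have h1 : Abelianization.map (MonoidHom.fst G H) x = 1 :=
    hG k _ hk (by rw [← map_pow, hx, map_one])
  have h2 : Abelianization.map (MonoidHom.snd G H) x = 1 :=
    hH k _ hk (by rw [← map_pow, hx, map_one])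
  have key : ∀ y : Abelianization (G × H), y =
      Abelianization.map (MonoidHom.inl G H) (Abelianization.map (MonoidHom.fst G H) y) *
      Abelianization.map (MonoidHom.inr G H) (Abelianization.map (MonoidHom.snd G H) y) := by
    intro y
    induction y using QuotientGroup.induction_on with
    | H g =>
      obtain ⟨a, b⟩ := g
      change Abelianization.of (a, b) = Abelianization.of (a, 1) * Abelianization.of (1, b)
      rw [← map_mul]
      simp
  rw [key x, h1, h2, map_one, map_one, one_mul]

theorem Two.prod {G H : Type} [Group G] [Group H] (hH : Two (Abelianization H)) :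
    Two (Abelianization (G × H)) := by
  obtain ⟨x, hx, hx2⟩ := hH
  refine ⟨Abelianization.map (MonoidHom.inr G H) x, ?_, by rw [← map_pow, hx2, map_one]⟩
  intro h
  apply hx
  have h1 : Abelianization.map (MonoidHom.snd G H) (Abelianization.map (MonoidHom.inr G H) x) = x := by
    induction x using QuotientGroup.induction_on with
    | H g => rfl
  rw [← h1, h, map_one]

theorem TF.pi {ι : Type} [Fintype ι] [DecidableEq ι] {G : ι → Type} [∀ i, Group (G i)]
    (h : ∀ i, TF (Abelianization (G i))) : TF (Abelianization (∀ i, G i)) := by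
  intro k x hk hx
  have h1 : ∀ i, Abelianization.map (Pi.evalMonoidHom G i) x = 1 :=
    fun i => h i k _ hk (by rw [← map_pow, hx, map_one])
  let F : Abelianization (∀ i, G i) →* Abelianization (∀ i, G i) :=
    ∏ i, (Abelianization.map (MonoidHom.mulSingle G i)).comp
      (Abelianization.map (Pi.evalMonoidHom G i))
  have key : F = MonoidHom.id _ := by
    apply Abelianization.hom_ext
    apply MonoidHom.pi_ext
    intro i g
    simp only [F, MonoidHom.comp_apply, MonoidHom.finsetProd_apply, MonoidHom.id_apply]
    rw [Finset.prod_eq_single i]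
    · simp
    · intro j _ hj
      simp [Pi.mulSingle_eq_of_ne hj]
    · simp
  have : x = F x := by rw [key]; rfl
  rw [this]
  simp only [F, MonoidHom.finsetProd_apply, MonoidHom.comp_apply, h1, map_one,
    Finset.prod_const_one]

/-- Semidirect products. -/
theorem TF.semidirect {N Q A : Type} [Group N] [Group Q] [CommGroup A] (φ : Q →* MulAut N)
    (hQ : TF (Abelianization Q)) (hA : TF A) (T : N →* A)
    (hT : ∀ q n, T (φ q n) = T n) (U : A →* Abelianization (N ⋊[φ] Q))
    (hU : ∀ n, U (T n) = Abelianization.of (SemidirectProduct.inl n)) :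
    TF (Abelianization (N ⋊[φ] Q)) := by
  intro k x hk hx
  induction x using QuotientGroup.induction_on with
  | H γ =>
    have h1 : Abelianization.map (SemidirectProduct.rightHom : N ⋊[φ] Q →* Q)
        (Abelianization.of γ) = 1 :=
      hQ k _ hk (by rw [← map_pow]; exact (congrArg _ hx).trans (map_one _))
    have h2 : (Abelianization.of γ : Abelianization (N ⋊[φ] Q)) =
        Abelianization.of (SemidirectProduct.inl γ.left) := by
      conv_lhs => rw [← SemidirectProduct.inl_left_mul_inr_right γ]
      rw [map_mul]
      have : (Abelianization.of (SemidirectProduct.inr γ.right) : Abelianization (N ⋊[φ] Q)) =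
          Abelianization.map (SemidirectProduct.inr : Q →* N ⋊[φ] Q)
            (Abelianization.map (SemidirectProduct.rightHom : N ⋊[φ] Q →* Q)
              (Abelianization.of γ)) := by
        simp
      rw [this, h1, map_one, mul_one]
    let T' : N ⋊[φ] Q →* A := SemidirectProduct.lift T 1 (by
      intro q
      ext n
      simp [hT])
    have h3 : T γ.left = 1 := by
      apply hA k _ hk
      have : Abelianization.lift T' (Abelianization.of γ) = T γ.left := by
        rw [Abelianization.lift_apply_of]
        conv_lhs => rw [← SemidirectProduct.inl_left_mul_inr_right γ]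
        simp only [T', map_mul, SemidirectProduct.lift_inl, SemidirectProduct.lift_inr,
          MonoidHom.one_apply, mul_one]
      rw [← this, ← map_pow]
      exact (congrArg _ hx).trans (map_one _)
    change Abelianization.of γ = 1
    rw [h2, ← hU, h3, map_one]

/-- In the abelianisation of a semidirect product, the elements `n` and `φ q n` agree. -/
theorem of_inl_aut {N Q : Type} [Group N] [Group Q] (φ : Q →* MulAut N) (q : Q) (n : N) :
    (Abelianization.of (SemidirectProduct.inl (φ q n)) : Abelianization (N ⋊[φ] Q)) =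
      Abelianization.of (SemidirectProduct.inl n) := by
  rw [SemidirectProduct.inl_aut, map_mul, map_mul, mul_right_comm, ← map_mul, ← map_mul,
    ← map_mul SemidirectProduct.inr, mul_inv_cancel, map_one, one_mul]

/-- A homomorphism on the normal subgroup which is invariant under the action detects elements of
the abelianisation of the semidirect product. -/
theorem ne_one_of_inv {N Q A : Type} [Group N] [Group Q] [CommGroup A] (φ : Q →* MulAut N)
    (T : N →* A) (hT : ∀ q n, T (φ q n) = T n) (n : N) (hn : T n ≠ 1) :
    (Abelianization.of (SemidirectProduct.inl n) : Abelianization (N ⋊[φ] Q)) ≠ 1 := by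
  let T' : N ⋊[φ] Q →* A := SemidirectProduct.lift T 1 (by
    intro q
    ext n
    simp [hT])
  intro h
  apply hn
  have h1 := congrArg (Abelianization.lift T') h
  rw [Abelianization.lift_apply_of, map_one] at h1
  simpa [T', SemidirectProduct.lift_inl] using h1

/-! ### Mapping tori of automorphisms which permute the factors of a product -/

section Torus

variable {n : ℕ} (G : Fin n → Type) [∀ i, Group (G i)] (σ : Equiv.Perm (Fin n))
  (α : MulAut (∀ i, G i))

/-- the period of `i` -/
noncomputable def per (i : Fin n) : ℕ := Function.minimalPeriod σ i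

theorem per_apply (i : Fin n) : per σ (σ i) = per σ i :=
  Function.minimalPeriod_apply (by
    rw [Function.mem_periodicPts]
    exact ⟨orderOf σ, orderOf_pos σ, by
      rw [Function.IsPeriodicPt, Function.IsFixedPt, ← Equiv.Perm.coe_pow, pow_orderOf_eq_one]
      rfl⟩)

theorem pow_per (i : Fin n) : (σ ^ (per σ i)) i = i := by
  rw [Equiv.Perm.coe_pow]
  exact Function.iterate_minimalPeriod

theorem per_pos (i : Fin n) : 0 < per σ i :=
  Function.minimalPeriod_pos_of_mem_periodicPts (by
    rw [Function.mem_periodicPts]
    exact ⟨orderOf σ, orderOf_pos σ, by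
      rw [Function.IsPeriodicPt, Function.IsFixedPt, ← Equiv.Perm.coe_pow, pow_orderOf_eq_one]
      rfl⟩)

theorem per_dvd {i : Fin n} {k : ℕ} (h : (σ ^ k) i = i) : per σ i ∣ k := by
  apply Function.IsPeriodicPt.minimalPeriod_dvd
  rw [Function.IsPeriodicPt, Function.IsFixedPt, ← Equiv.Perm.coe_pow]
  exact h

variable {G σ α}

theorem pow_single (hperm : ∀ (i : Fin n) (g : G i), ∃ h : G (σ i),
    α (Pi.mulSingle i g) = Pi.mulSingle (σ i) h) :
    ∀ (j : ℕ) (i : Fin n) (g : G i), ∃ h : G ((σ ^ j) i),
      (α ^ j) (Pi.mulSingle i g) = Pi.mulSingle ((σ ^ j) i) h := by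
  intro j
  induction j with
  | zero => intro i g; exact ⟨g, rfl⟩
  | succ j ih =>
    intro i g
    obtain ⟨h1, e1⟩ := ih i g
    obtain ⟨h2, e2⟩ := hperm _ h1
    have e : (σ ^ (j + 1)) i = σ ((σ ^ j) i) := by
      rw [pow_succ']
      rfl
    rw [e]
    refine ⟨h2, ?_⟩
    rw [pow_succ', MulAut.mul_apply, e1, e2]

theorem zpow_inv {A : Type} [CommGroup A] (T : (∀ i, G i) →* A) (hT : ∀ x, T (α x) = T x)
    (q : Multiplicative ℤ) (x : ∀ i, G i) :
    T ((zpowersHom (MulAut (∀ i, G i)) α) q x) = T x := by
  have h1 : ∀ (j : ℕ) (x : ∀ i, G i), T ((α ^ j) x) = T x := by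
    intro j
    induction j with
    | zero => intro x; rfl
    | succ j ih => intro x; rw [pow_succ, MulAut.mul_apply, ih, hT]
  have h2 : ∀ (z : ℤ) (x : ∀ i, G i), T ((α ^ z) x) = T x := by
    intro z x
    obtain ⟨j, rfl | rfl⟩ := z.eq_nat_or_neg
    · rw [zpow_natCast, h1]
    · rw [← h1 j, zpow_neg, zpow_natCast, ← MulAut.mul_apply, mul_inv_cancel, MulAut.one_apply]
  exact h2 _ x

theorem of_inl_pow (j : ℕ) (x : ∀ i, G i) :
    (Abelianization.of (SemidirectProduct.inl ((α ^ j) x)) :
      Abelianization ((∀ i, G i) ⋊[zpowersHom (MulAut (∀ i, G i)) α] Multiplicative ℤ)) =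
      Abelianization.of (SemidirectProduct.inl x) := by
  have := of_inl_aut (zpowersHom (MulAut (∀ i, G i)) α) (Multiplicative.ofAdd (j : ℤ)) x
  simpa using this

/-- A homomorphism on one factor which is invariant under the return map of this factor extends to
an invariant homomorphism of the product. -/
theorem exists_detect {A : Type} [CommGroup A]
    (hperm : ∀ (i : Fin n) (g : G i), ∃ h : G (σ i),
      α (Pi.mulSingle i g) = Pi.mulSingle (σ i) h)
    (i : Fin n) (ψ : G i →* A)
    (hψ : ∀ g, ψ (((α ^ (per σ i)) (Pi.mulSingle i g)) i) = ψ g) :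
    ∃ T : (∀ i, G i) →* A, (∀ x, T (α x) = T x) ∧ ∀ g, T (Pi.mulSingle i g) = ψ g := by
  classical
  let F : ℕ → (j : Fin n) → (G j →* A) := fun t j =>
    if (σ ^ t) j = i then ψ.comp ((Pi.evalMonoidHom G i).comp
      (((α ^ t).toMonoidHom).comp (MonoidHom.mulSingle G j))) else 1
  have F_apply : ∀ t j g, F t j g = if (σ ^ t) j = i then
      ψ (((α ^ t) (Pi.mulSingle j g)) i) else 1 := by
    intro t j g
    simp only [F]
    split_ifs <;> rfl
  let T : (∀ i, G i) →* A :=
    ∏ j, ∏ t ∈ range (per σ i), (F t j).comp (Pi.evalMonoidHom G j)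
  have T_single : ∀ (j : Fin n) (g : G j), T (Pi.mulSingle j g) =
      ∏ t ∈ range (per σ i), F t j g := by
    intro j g
    simp only [T, MonoidHom.finsetProd_apply, MonoidHom.comp_apply, Pi.evalMonoidHom_apply]
    rw [Finset.prod_eq_single j]
    · rw [Pi.mulSingle_eq_same]
    · intro k _ hk
      rw [Pi.mulSingle_eq_of_ne hk]
      simp
    · simp
  refine ⟨T, ?_, ?_⟩
  · intro x
    suffices hh : T.comp α.toMonoidHom = T from DFunLike.congr_fun hh x
    apply MonoidHom.pi_ext
    intro j g
    obtain ⟨h1, e1⟩ := hperm j g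
    change T (α (Pi.mulSingle j g)) = _
    rw [e1, T_single, T_single]
    have e2 : ∀ t, F t (σ j) h1 = F (t + 1) j g := by
      intro t
      rw [F_apply, F_apply, ← e1, pow_succ, pow_succ, MulAut.mul_apply, Equiv.Perm.mul_apply]
    simp only [e2]
    have e3 := Finset.prod_range_succ (fun t => F t j g) (per σ i)
    have e4 := Finset.prod_range_succ' (fun t => F t j g) (per σ i)
    have e5 : F (per σ i) j g = F 0 j g := by
      rw [F_apply, F_apply]
      by_cases hj : j = i
      · subst hj
        rw [if_pos (pow_per σ j), hψ]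
        simp
      · rw [if_neg, if_neg]
        · simpa using hj
        · intro h
          apply hj
          have := pow_per σ i
          exact (σ ^ per σ i).injective (h.trans this.symm)
    rw [e3, e5] at e4
    exact (mul_right_cancel e4).symm
  · intro g
    rw [T_single, Finset.prod_eq_single 0]
    · rw [F_apply]
      simp
    · intro t ht ht0
      rw [F_apply, if_neg]
      intro h
      have := Nat.le_of_dvd (Nat.pos_of_ne_zero ht0) (per_dvd σ h)
      exact absurd (Finset.mem_range.1 ht) (not_lt.2 this)
    · intro h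
      exact absurd (Finset.mem_range.2 (per_pos σ i)) h

/-- Mapping tori with return maps which are trivial on the abelianisations. -/
theorem TF.mappingTorus
    (hperm : ∀ (i : Fin n) (g : G i), ∃ h : G (σ i), α (Pi.mulSingle i g) = Pi.mulSingle (σ i) h)
    (hret : ∀ (i : Fin n), ∃ c : G i, ∀ g : G i,
      (α ^ (per σ i)) (Pi.mulSingle i g) = Pi.mulSingle i (c * g * c⁻¹))
    (h : ∀ i, TF (Abelianization (G i))) :
    TF (Abelianization ((∀ i, G i) ⋊[zpowersHom (MulAut (∀ i, G i)) α] Multiplicative ℤ)) := by
  classical
  let ℓ : Fin n → ℕ := per σ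
  have hℓσ : ∀ i, ℓ (σ i) = ℓ i := per_apply σ
  have hℓ : ∀ i, (σ ^ (ℓ i)) i = i := pow_per σ
  have hpow := pow_single hperm
  let T : (∀ i, G i) →* Abelianization (∀ i, G i) :=
    ∏ i, ∏ j ∈ range (ℓ i), Abelianization.of.comp
      (((α ^ j).toMonoidHom).comp ((MonoidHom.mulSingle G i).comp (Pi.evalMonoidHom G i)))
  have T_single : ∀ (i : Fin n) (g : G i), T (Pi.mulSingle i g) =
      ∏ j ∈ range (ℓ i), Abelianization.of ((α ^ j) (Pi.mulSingle i g)) := by
    intro i g
    simp only [T, MonoidHom.finsetProd_apply, MonoidHom.comp_apply, Pi.evalMonoidHom_apply,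
      MonoidHom.mulSingle_apply]
    rw [Finset.prod_eq_single i]
    · rw [Pi.mulSingle_eq_same]
      rfl
    · intro j _ hj
      rw [Pi.mulSingle_eq_of_ne hj]
      simp
    · simp
  have Tα : ∀ n, T (α n) = T n := by
    intro n
    suffices hh : T.comp α.toMonoidHom = T from DFunLike.congr_fun hh n
    apply MonoidHom.pi_ext
    intro i g
    obtain ⟨h1, e1⟩ := hperm i g
    change T (α (Pi.mulSingle i g)) = _
    rw [e1, T_single, T_single, hℓσ, ← e1]
    obtain ⟨c, hc⟩ := hret i
    have e2 : (Abelianization.of ((α ^ (ℓ i)) (Pi.mulSingle i g)) :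
        Abelianization (∀ i, G i)) = Abelianization.of ((α ^ 0) (Pi.mulSingle i g)) := by
      rw [hc g, pow_zero, MulAut.one_apply, Pi.mulSingle_mul, Pi.mulSingle_mul, map_mul, map_mul,
        mul_right_comm, ← map_mul, ← map_mul, ← Pi.mulSingle_mul, ← Pi.mulSingle_mul]
      simp
    have e3 := Finset.prod_range_succ
      (fun j => (Abelianization.of ((α ^ j) (Pi.mulSingle i g)) : Abelianization (∀ i, G i)))
      (ℓ i)
    have e4 := Finset.prod_range_succ'
      (fun j => (Abelianization.of ((α ^ j) (Pi.mulSingle i g)) : Abelianization (∀ i, G i)))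
      (ℓ i)
    rw [e3] at e4
    simp only [e2] at e4
    have e5 := mul_right_cancel e4
    rw [e5]
    apply Finset.prod_congr rfl
    intro j _
    rw [pow_succ, MulAut.mul_apply]
  -- representatives of the cycles
  let r : Fin n → Fin n := fun i => (Quotient.mk (Equiv.Perm.SameCycle.setoid σ) i).out
  have hr : ∀ i, Equiv.Perm.SameCycle σ i (r i) := fun i =>
    (Quotient.exact (s := Equiv.Perm.SameCycle.setoid σ) (Quotient.out_eq _)).symm
  have hrσ : ∀ (j : ℕ) (i : Fin n), r ((σ ^ j) i) = r i := by
    intro j i
    simp only [r]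
    congr 1
    apply Quotient.sound (s := Equiv.Perm.SameCycle.setoid σ)
    exact (Equiv.Perm.SameCycle.symm ⟨j, by simp⟩)
  let A' := Abelianization ((∀ i, G i) ⋊[zpowersHom (MulAut (∀ i, G i)) α] Multiplicative ℤ)
  let U : Abelianization (∀ i, G i) →* A' :=
    Abelianization.lift (∏ i, if r i = i then
      Abelianization.of.comp ((SemidirectProduct.inl).comp
        ((MonoidHom.mulSingle G i).comp (Pi.evalMonoidHom G i))) else 1)
  have U_single : ∀ (i : Fin n) (g : G i), U (Abelianization.of (Pi.mulSingle i g)) =
      if r i = i then Abelianization.of (SemidirectProduct.inl (Pi.mulSingle i g)) else 1 := by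
    intro i g
    simp only [U, Abelianization.lift_apply_of, MonoidHom.finsetProd_apply]
    rw [Finset.prod_eq_single i]
    · split_ifs with hi
      · simp
      · rfl
    · intro j _ hj
      split_ifs with hi
      · simp [Pi.mulSingle_eq_of_ne hj]
      · rfl
    · simp
  apply TF.semidirect (zpowersHom (MulAut (∀ i, G i)) α) tf_int (TF.pi h) T ?_ U ?_
  · exact zpow_inv T Tα
  · intro x
    let W : (∀ i, G i) →* A' := Abelianization.of.comp SemidirectProduct.inl
    suffices hUW : U.comp T = W from DFunLike.congr_fun hUW x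
    apply MonoidHom.pi_ext
    intro i g
    change U (T (Pi.mulSingle i g)) =
      (Abelianization.of (SemidirectProduct.inl (Pi.mulSingle i g)) : A')
    rw [T_single, map_prod]
    set y : A' := Abelianization.of (SemidirectProduct.inl (Pi.mulSingle i g)) with hy
    have h1 : ∀ j, U (Abelianization.of ((α ^ j) (Pi.mulSingle i g))) =
        if (σ ^ j) i = r i then y else 1 := by
      intro j
      obtain ⟨h2, e2⟩ := hpow j i g
      rw [e2, U_single, hrσ, ← e2, of_inl_pow]
      simp only [eq_comm, hy]
    simp only [h1]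
    have hpos : 0 < ℓ i := per_pos σ i
    obtain ⟨j0, hj0⟩ := (hr i).exists_pow_eq'
    have hj1 : (σ ^ (j0 % ℓ i)) i = r i := by
      rw [← hj0.2]
      have := Function.iterate_mod_minimalPeriod_eq (f := σ) (x := i) (n := j0)
      rw [Equiv.Perm.coe_pow, Equiv.Perm.coe_pow]
      exact this
    rw [Finset.prod_eq_single (j0 % ℓ i)]
    · rw [if_pos hj1]
    · intro j hj hne
      rw [if_neg]
      intro hj2
      apply hne
      have e : (σ^[j]) i = (σ^[j0 % ℓ i]) i := by
        rw [← Equiv.Perm.coe_pow, ← Equiv.Perm.coe_pow, hj2, hj1]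
      exact (Function.iterate_eq_iterate_iff_of_lt_minimalPeriod (Finset.mem_range.1 hj)
        (Nat.mod_lt _ hpos)).1 e
    · intro hn
      exact absurd (Finset.mem_range.2 (Nat.mod_lt _ hpos)) hn

end Torus

end Pool.Agent.H764.KS
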