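import Pool.Agent.H764.KnotDefs

/-!
# Mixed braid groups and actions (versions used in the proofs)
-/

set_option autoImplicit false

namespace Pool.Agent.H764.KS

open Equiv

section Mixed

variable {k : ℕ} {m : Fin k → ℕ} {n : ℕ} (e : Fin (n + 1) ≃ Σ c : Fin k, Fin (m c + 1))

/-- The mixed braid group: the braids (together with the induced permutations of the strands of
each kind) which preserve the kinds of the strands, where the strand `a` has the kind `(e a).1`. -/
def MixedBraid : Subgroup (Braid n × ∀ c, Perm (Fin (m c + 1))) where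
  carrier := {x | ∀ a, e (bperm n x.1 a) = ⟨(e a).1, x.2 (e a).1 (e a).2⟩}
  one_mem' := by intro a; simp
  mul_mem' := by
    intro x y hx hy a
    change e (bperm n (x.1 * y.1) a) = ⟨(e a).1, x.2 (e a).1 (y.2 (e a).1 (e a).2)⟩
    rw [map_mul, Perm.mul_apply, hx, hy]
  inv_mem' := by
    intro x hx a
    change e (bperm n (x.1)⁻¹ a) = ⟨(e a).1, (x.2 (e a).1)⁻¹ (e a).2⟩
    rw [map_inv]
    obtain ⟨b, rfl⟩ := (bperm n x.1).surjective a
    rw [hx b]
    simp

/-- The permutations of the strands of each kind. -/
def youngPerm : MixedBraid e →* ∀ c, Perm (Fin (m c + 1)) :=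
  (MonoidHom.snd _ _).comp (MixedBraid e).subtype

end Mixed

/-- The action of a group `M` on `∏_x (H x) ^ (m x + 1)` through the Young group
`∏_x Perm (Fin (m x + 1))`: the factors of the same kind `x` are permuted. -/
def youngAction {C : Type} (m : C → ℕ) (H : C → Type) [∀ x, Group (H x)] {M : Type} [Group M]
    (p : M →* ∀ x, Equiv.Perm (Fin (m x + 1))) : M →* MulAut (∀ x, Fin (m x + 1) → H x) where
  toFun μ :=
    { toFun := fun g x i => g x (((p μ) x)⁻¹ i)
      invFun := fun g x i => g x (((p μ) x) i)
      left_inv := fun g => by funext x i; simp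
      right_inv := fun g => by funext x i; simp
      map_mul' := fun g h => rfl }
  map_one' := by ext g x i; simp
  map_mul' μ ν := by ext g x i; simp [mul_inv_rev]

end Pool.Agent.H764.KS
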