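import Pool.Agent.H764.KS1
import Pool.Agent.H764.KnotRaw

/-!
# Connected sums
-/

set_option autoImplicit false
set_option linter.unusedSectionVars false

namespace Pool.Agent.H764.KS

open Finset

section Sum

variable {C : Type} [Fintype C] [DecidableEq C] (m : C → ℕ) (H : C → Type)
    [∀ x, Group (H x)] {M : Type} [Group M] (p : M →* ∀ x, Equiv.Perm (Fin (m x + 1)))

/-- product of a homomorphism over the copies of the kind `c` -/
def blockHom {A : Type} [CommGroup A] (c : C) (ψ : H c →* A) :
    (∀ x, Fin (m x + 1) → H x) →* A :=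
  ∏ i : Fin (m c + 1), ψ.comp ((Pi.evalMonoidHom (fun _ : Fin (m c + 1) => H c) i).comp
        (Pi.evalMonoidHom (fun x => Fin (m x + 1) → H x) c))

theorem blockHom_apply {A : Type} [CommGroup A] (c : C) (ψ : H c →* A)
    (g : ∀ x, Fin (m x + 1) → H x) :
    blockHom m H c ψ g = ∏ i : Fin (m c + 1), ψ (g c i) := by
  rw [blockHom, MonoidHom.finsetProd_apply]
  rfl

theorem blockHom_inv {A : Type} [CommGroup A] (c : C) (ψ : H c →* A) (q : M)
    (g : ∀ x, Fin (m x + 1) → H x) :
    blockHom m H c ψ (youngAction m H p q g) = blockHom m H c ψ g := by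
  rw [blockHom_apply, blockHom_apply]
  exact Fintype.prod_equiv ((p q c)⁻¹) _ _ (fun i => rfl)

theorem blockHom_single {A : Type} [CommGroup A] (c : C) (ψ : H c →* A) (i : Fin (m c + 1))
    (g : H c) :
    blockHom m H c ψ (Pi.mulSingle c (Pi.mulSingle i g)) = ψ g := by
  rw [blockHom_apply, Pi.mulSingle_eq_same, Finset.prod_eq_single i]
  · simp
  · intro j _ hj
    simp [Pi.mulSingle_eq_of_ne hj]
  · simp

theorem blockHom_single_ne {A : Type} [CommGroup A] {c d : C} (hcd : c ≠ d) (ψ : H c →* A)
    (i : Fin (m d + 1)) (g : H d) :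
    blockHom m H c ψ (Pi.mulSingle d (Pi.mulSingle i g)) = 1 := by
  rw [blockHom_apply, Pi.mulSingle_eq_of_ne hcd]
  simp

/-- all positions of the same kind are equivalent in the abelianisation -/
theorem of_single_eq (hp : Function.Surjective p) (x : C) (i j : Fin (m x + 1)) (g : H x) :
    (Abelianization.of (SemidirectProduct.inl (Pi.mulSingle x (Pi.mulSingle i g))) :
      Abelianization ((∀ x, Fin (m x + 1) → H x) ⋊[youngAction m H p] M)) =
    Abelianization.of (SemidirectProduct.inl (Pi.mulSingle x (Pi.mulSingle j g))) := by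
  obtain ⟨q, hq⟩ := hp (Pi.mulSingle x (Equiv.swap j i))
  rw [← of_inl_aut (youngAction m H p) q (Pi.mulSingle x (Pi.mulSingle j g))]
  congr 2
  funext y k
  change _ = (Pi.mulSingle x (Pi.mulSingle j g) :
    ∀ x, Fin (m x + 1) → H x) y ((p q y)⁻¹ k)
  rw [hq]
  by_cases hy : y = x
  · subst hy
    simp only [Pi.mulSingle_eq_same, Equiv.swap_inv]
    by_cases hk : k = i
    · subst hk
      simp
    · rw [Pi.mulSingle_eq_of_ne hk, Pi.mulSingle_eq_of_ne]
      intro h0
      apply hk
      have := congrArg (Equiv.swap j i) h0
      simpa using this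
  · simp [Pi.mulSingle_eq_of_ne hy]

/-- Connected sums: the torsion-free case. -/
theorem sum_tf (hp : Function.Surjective p) (hM : TF (Abelianization M))
    (h : ∀ x, TF (Abelianization (H x))) :
    TF (Abelianization ((∀ x, Fin (m x + 1) → H x) ⋊[youngAction m H p] M)) := by
  let T : (∀ x, Fin (m x + 1) → H x) →* ∀ x, Abelianization (H x) :=
    MonoidHom.pi fun x => blockHom m H x Abelianization.of
  have T_apply : ∀ (g : ∀ x, Fin (m x + 1) → H x) (x : C),
      T g x = blockHom m H x Abelianization.of g := fun g x => rfl
  let V : ∀ x, Abelianization (H x) →*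
      Abelianization ((∀ x, Fin (m x + 1) → H x) ⋊[youngAction m H p] M) := fun x =>
    Abelianization.map ((SemidirectProduct.inl).comp
      ((MonoidHom.mulSingle (fun x => Fin (m x + 1) → H x) x).comp
        (MonoidHom.mulSingle (fun _ : Fin (m x + 1) => H x) 0)))
  let U : (∀ x, Abelianization (H x)) →*
      Abelianization ((∀ x, Fin (m x + 1) → H x) ⋊[youngAction m H p] M) :=
    ∏ x, (V x).comp (Pi.evalMonoidHom (fun x => Abelianization (H x)) x)
  have hA : TF (∀ x, Abelianization (H x)) := by
    intro k x hk hx
    funext y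
    exact h y k (x y) hk (by simpa using congrFun hx y)
  refine TF.semidirect (youngAction m H p) hM hA T ?_ U ?_
  · intro q n
    funext x
    rw [T_apply, T_apply, blockHom_inv]
  · intro n
    let W : (∀ x, Fin (m x + 1) → H x) →*
        Abelianization ((∀ x, Fin (m x + 1) → H x) ⋊[youngAction m H p] M) :=
      Abelianization.of.comp SemidirectProduct.inl
    suffices hUW : U.comp T = W by
      exact DFunLike.congr_fun hUW n
    apply MonoidHom.pi_ext
    intro x f
    -- both sides are homomorphisms in `f`
    have : ((U.comp T).comp (MonoidHom.mulSingle (fun x => Fin (m x + 1) → H x) x)) =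
        (W.comp (MonoidHom.mulSingle (fun x => Fin (m x + 1) → H x) x)) := by
      apply MonoidHom.pi_ext
      intro i g
      simp only [MonoidHom.comp_apply, MonoidHom.mulSingle_apply]
      have hT : T (Pi.mulSingle x (Pi.mulSingle i g)) = Pi.mulSingle x (Abelianization.of g) := by
        funext y
        rw [T_apply]
        by_cases hy : y = x
        · subst hy
          rw [Pi.mulSingle_eq_same, blockHom_single]
        · rw [Pi.mulSingle_eq_of_ne hy, blockHom_single_ne m H hy]
      rw [hT]
      simp only [U, W, MonoidHom.finsetProd_apply, MonoidHom.comp_apply, Pi.evalMonoidHom_apply]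
      rw [Finset.prod_eq_single x]
      · rw [Pi.mulSingle_eq_same]
        simp only [V, Abelianization.map_of, MonoidHom.comp_apply, MonoidHom.mulSingle_apply]
        exact of_single_eq m H p hp x 0 i g
      · intro y _ hy
        rw [Pi.mulSingle_eq_of_ne hy, map_one]
      · simp
    exact DFunLike.congr_fun this f

/-- Connected sums: two-torsion in a summand. -/
theorem sum_two (c : C) (h : Two (Abelianization (H c))) :
    Two (Abelianization ((∀ x, Fin (m x + 1) → H x) ⋊[youngAction m H p] M)) := by
  obtain ⟨y, hy, hy2⟩ := h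
  let V : Abelianization (H c) →*
      Abelianization ((∀ x, Fin (m x + 1) → H x) ⋊[youngAction m H p] M) :=
    Abelianization.map ((SemidirectProduct.inl).comp
      ((MonoidHom.mulSingle (fun x => Fin (m x + 1) → H x) c).comp
        (MonoidHom.mulSingle (fun _ : Fin (m c + 1) => H c) 0)))
  refine ⟨V y, ?_, by rw [← map_pow, hy2, map_one]⟩
  induction y using QuotientGroup.induction_on with
  | H g =>
    exact ne_one_of_inv (youngAction m H p) (blockHom m H c Abelianization.of)
      (fun q n => blockHom_inv m H p c Abelianization.of q n) _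
      (by
        rw [MonoidHom.comp_apply, MonoidHom.mulSingle_apply, MonoidHom.mulSingle_apply,
          blockHom_single]
        exact hy)

end Sum

end Pool.Agent.H764.KS
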