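import Pool.Agent.H764.KnotRaw

/-!
# Braid groups: the kernel of the map to the symmetric group
-/

set_option autoImplicit false
set_option linter.unusedSectionVars false

namespace Pool.Agent.H764.KS

open Equiv

/-- The Coxeter presentation of the symmetric group: injectivity. -/
theorem cox {W : Type} [Group W] (s : ℕ → W) (f : W →* Perm ℕ) :
    ∀ n : ℕ, (∀ i < n, s i * s i = 1) →
    (∀ i, i + 1 < n → s i * s (i + 1) * s i = s (i + 1) * s i * s (i + 1)) →
    (∀ i j, i + 1 < j → j < n → s i * s j = s j * s i) →
    (∀ i < n, f (s i) = swap i (i + 1)) →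
    ∀ w ∈ Subgroup.closure (s '' Set.Iio n), f w = 1 → w = 1 := by
  intro n
  induction n with
  | zero =>
    intro _ _ _ _ w hw _
    simpa using hw
  | succ n ih =>
    intro hs hb hc hf w hw hfw
    have ih' := ih (fun i hi => hs i (by omega)) (fun i hi => hb i (by omega))
      (fun i j hij hj => hc i j hij (by omega)) (fun i hi => hf i (by omega))
    -- the coset representatives
    let cc : ℕ → W := fun j => Nat.rec (motive := fun _ => W) 1 (fun j c => c * s (n - j)) j
    have cc0 : cc 0 = 1 := rfl
    have ccs : ∀ j, cc (j + 1) = cc j * s (n - j) := fun j => rfl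
    have hA : ∀ j ≤ n, ∀ i, i < n - j → cc j * s i = s i * cc j := by
      intro j
      induction j with
      | zero => intro _ i _; rw [cc0, one_mul, mul_one]
      | succ j ihj =>
        intro hj i hi
        have h1 := ihj (by omega) i (by omega)
        have h2 : s i * s (n - j) = s (n - j) * s i := hc i (n - j) (by omega) (by omega)
        rw [ccs, mul_assoc, ← h2, ← mul_assoc, h1, mul_assoc]
    have hB : ∀ j ≤ n + 1, ∀ i, n + 2 ≤ i + j → i ≤ n → cc j * s i = s (i - 1) * cc j := by
      intro j
      induction j using Nat.strong_induction_on with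
      | _ j ihj =>
        intro hj i hi hin
        obtain ⟨j, rfl⟩ : ∃ j', j = j' + 1 := ⟨j - 1, by omega⟩
        rcases Nat.lt_or_ge (n + 1) (i + j) with h | h
        · have h2 : s (n - j) * s i = s i * s (n - j) := hc (n - j) i (by omega) (by omega)
          rw [ccs, mul_assoc, h2, ← mul_assoc, ihj j (by omega) (by omega) i (by omega) hin,
            mul_assoc]
        · obtain ⟨j, rfl⟩ : ∃ j', j = j' + 1 := ⟨j - 1, by omega⟩
          have e1 : n - j = i := by omega
          have e2 : n - (j + 1) = i - 1 := by omega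
          have h3 := hb (i - 1) (by omega)
          have e3 : i - 1 + 1 = i := by omega
          rw [e3] at h3
          have h4 := hA j (by omega) (i - 1) (by omega)
          calc cc (j + 1 + 1) * s i = cc j * (s i * s (i - 1) * s i) := by
                rw [ccs (j + 1), ccs j, e1, e2]; simp only [mul_assoc]
            _ = cc j * s (i - 1) * s i * s (i - 1) := by rw [← h3]; simp only [mul_assoc]
            _ = s (i - 1) * (cc j * s i * s (i - 1)) := by rw [h4]; simp only [mul_assoc]
            _ = s (i - 1) * cc (j + 1 + 1) := by rw [ccs (j + 1), ccs j, e1, e2]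
    -- closedness
    have hmem : ∀ i < n, s i ∈ Subgroup.closure (s '' Set.Iio n) := fun i hi =>
      Subgroup.subset_closure ⟨i, hi, rfl⟩
    have key : ∀ w ∈ Subgroup.closure (s '' Set.Iio (n + 1)),
        ∃ h ∈ Subgroup.closure (s '' Set.Iio n), ∃ j ≤ n + 1, w = h * cc j := by
      have step : ∀ (j : ℕ), j ≤ n + 1 → ∀ i ≤ n, ∃ h ∈ Subgroup.closure (s '' Set.Iio n),
          ∃ j' ≤ n + 1, cc j * s i = h * cc j' := by
        intro j hj i hi
        rcases Nat.lt_trichotomy (i + j) n with h | h | h
        · exact ⟨s i, hmem i (by omega), j, hj, hA j (by omega) i (by omega)⟩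
        · refine ⟨1, one_mem _, j + 1, by omega, ?_⟩
          rw [ccs, one_mul]
          congr 2
          omega
        · rcases Nat.eq_or_lt_of_le (Nat.succ_le_of_lt h) with h' | h'
          · obtain ⟨j, rfl⟩ : ∃ j', j = j' + 1 := ⟨j - 1, by omega⟩
            refine ⟨1, one_mem _, j, by omega, ?_⟩
            have e1 : n - j = i := by omega
            rw [ccs, e1, mul_assoc, hs i (by omega), mul_one, one_mul]
          · exact ⟨s (i - 1), hmem (i - 1) (by omega), j, hj, hB j hj i (by omega) hi⟩
      intro w hw
      induction hw using Subgroup.closure_induction_right with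
      | one => exact ⟨1, one_mem _, 0, by omega, by rw [cc0, one_mul]⟩
      | mul_right x hx y hy ihx =>
        obtain ⟨h, hh, j, hj, rfl⟩ := ihx
        obtain ⟨i, hi, rfl⟩ := hy
        obtain ⟨h', hh', j', hj', e⟩ := step j hj i (Nat.lt_succ_iff.1 hi)
        exact ⟨h * h', mul_mem hh hh', j', hj', by rw [mul_assoc, e, mul_assoc]⟩
      | mul_inv_cancel x hx y hy ihx =>
        obtain ⟨h, hh, j, hj, rfl⟩ := ihx
        obtain ⟨i, hi, rfl⟩ := hy
        have e0 : (s i)⁻¹ = s i := inv_eq_of_mul_eq_one_left (hs i hi)
        obtain ⟨h', hh', j', hj', e⟩ := step j hj i (Nat.lt_succ_iff.1 hi)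
        exact ⟨h * h', mul_mem hh hh', j', hj', by rw [e0, mul_assoc, e, mul_assoc]⟩
    obtain ⟨h, hh, j, hj, rfl⟩ := key w hw
    have hfix : ∀ h ∈ Subgroup.closure (s '' Set.Iio n), f h (n + 1) = n + 1 := by
      intro h hh
      induction hh using Subgroup.closure_induction with
      | one => simp
      | mem x hx =>
        obtain ⟨i, hi, rfl⟩ := hx
        have hi' : i < n := hi
        rw [hf i (by omega), swap_apply_of_ne_of_ne (by omega) (by omega)]
      | mul x y _ _ hx hy => rw [map_mul, Perm.mul_apply, hy, hx]
      | inv x _ hx =>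
        rw [map_inv, Perm.inv_eq_iff_eq, hx]
    have hcc : ∀ j ≤ n + 1, f (cc j) (n + 1 - j) = n + 1 := by
      intro j
      induction j with
      | zero => intro _; rw [cc0]; simp
      | succ j ihj =>
        intro hj
        rw [ccs, map_mul, Perm.mul_apply, hf (n - j) (by omega)]
        have e1 : n + 1 - (j + 1) = n - j := by omega
        rw [e1, swap_apply_left]
        have e2 : n - j + 1 = n + 1 - j := by omega
        rw [e2]
        exact ihj (by omega)
    have h1 : f (h * cc j) (n + 1 - j) = n + 1 := by
      rw [map_mul, Perm.mul_apply, hcc j hj, hfix h hh]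
    rw [hfw, Perm.one_apply] at h1
    have hj0 : j = 0 := by omega
    subst hj0
    rw [cc0, mul_one] at hfw ⊢
    exact ih' h hh hfw

theorem bperm_surj (n : ℕ) : Function.Surjective (bperm n) := by
  rw [← MonoidHom.range_eq_top, eq_top_iff]
  have h := Perm.mclosure_swap_castSucc_succ n
  intro x _
  have hx : x ∈ Submonoid.closure (Set.range fun i : Fin n ↦ swap i.castSucc i.succ) := by
    rw [h]; trivial
  have : Submonoid.closure (Set.range fun i : Fin n ↦ swap i.castSucc i.succ) ≤
      (bperm n).range.toSubmonoid := by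
    rw [Submonoid.closure_le]
    rintro _ ⟨i, rfl⟩
    exact ⟨sig i, bperm_sig i⟩
  exact this hx

theorem closure_sig (n : ℕ) : Subgroup.closure (Set.range (sig (n := n))) = ⊤ :=
  PresentedGroup.closure_range_of _

/-- The kernel of the map to the symmetric group is normally generated by the squares of the
generators. -/
theorem ker_bperm (n : ℕ) :
    (bperm n).ker ≤ Subgroup.normalClosure (Set.range fun i : Fin n => sig i ^ 2) := by
  classical
  intro β hβ
  set N := Subgroup.normalClosure (Set.range fun i : Fin n => sig i ^ 2) with hN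
  have hle : N ≤ (bperm n).ker := by
    apply Subgroup.normalClosure_le_normal
    rintro _ ⟨i, rfl⟩
    rw [SetLike.mem_coe, MonoidHom.mem_ker, map_pow, bperm_sig, pow_two, swap_mul_self]
  let s : ℕ → Braid n ⧸ N := fun j => if h : j < n then QuotientGroup.mk (sig ⟨j, h⟩) else 1
  have hsj : ∀ (j : ℕ) (h : j < n), s j = QuotientGroup.mk (sig ⟨j, h⟩) := fun j h => dif_pos h
  let f : Braid n ⧸ N →* Perm ℕ :=
    (Perm.viaEmbeddingHom (Fin.valEmbedding (n := n + 1))).comp
      (QuotientGroup.lift N (bperm n) hle)
  have hf : ∀ β, f (QuotientGroup.mk β) =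
      (bperm n β).viaEmbedding (Fin.valEmbedding (n := n + 1)) := fun β => rfl
  have hsw : ∀ a b : Fin (n + 1), (swap a b).viaEmbedding (Fin.valEmbedding (n := n + 1)) =
      swap (a : ℕ) (b : ℕ) := by
    intro a b
    ext x
    by_cases hx : x < n + 1
    · have h1 := Perm.viaEmbedding_apply (swap a b) (Fin.valEmbedding (n := n + 1)) ⟨x, hx⟩
      simp only [Fin.valEmbedding_apply] at h1
      rw [h1]
      rcases eq_or_ne (⟨x, hx⟩ : Fin (n + 1)) a with h | h
      · subst h
        rw [swap_apply_left, swap_apply_left]
      · rcases eq_or_ne (⟨x, hx⟩ : Fin (n + 1)) b with h' | h'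
        · subst h'
          rw [swap_apply_right, swap_apply_right]
        · rw [swap_apply_of_ne_of_ne h h', swap_apply_of_ne_of_ne]
          · intro e; exact h (Fin.ext e)
          · intro e; exact h' (Fin.ext e)
    · rw [Perm.viaEmbedding_apply_of_notMem, swap_apply_of_ne_of_ne]
      · intro e; exact hx (e ▸ a.2)
      · intro e; exact hx (e ▸ b.2)
      · rintro ⟨y, hy⟩
        exact hx (hy ▸ y.2)
  have hcl : ∀ β : Braid n, (QuotientGroup.mk β : Braid n ⧸ N) ∈
      Subgroup.closure (s '' Set.Iio n) := by
    intro β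
    have h1 : β ∈ Subgroup.closure (Set.range (sig (n := n))) := by
      rw [closure_sig]; trivial
    induction h1 using Subgroup.closure_induction with
    | one => exact one_mem _
    | mem x hx =>
      obtain ⟨i, rfl⟩ := hx
      exact Subgroup.subset_closure ⟨i, i.2, hsj i i.2⟩
    | mul x y _ _ hx hy => exact mul_mem hx hy
    | inv x _ hx => exact inv_mem hx
  have hmain := cox s f n
    (fun i hi => by
      rw [hsj i hi, ← QuotientGroup.mk_mul, QuotientGroup.eq_one_iff, ← pow_two]
      exact Subgroup.subset_normalClosure ⟨_, rfl⟩)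
    (fun i hi => by
      rw [hsj i (by omega), hsj (i + 1) hi, ← QuotientGroup.mk_mul, ← QuotientGroup.mk_mul,
        ← QuotientGroup.mk_mul, ← QuotientGroup.mk_mul, sig_braid _ _ rfl])
    (fun i j hij hj => by
      rw [hsj i (by omega), hsj j hj, ← QuotientGroup.mk_mul, ← QuotientGroup.mk_mul,
        sig_comm _ _ hij])
    (fun i hi => by
      rw [hsj i hi, hf, bperm_sig, hsw]
      rfl)
    (QuotientGroup.mk β)
    (hcl β)
    (by
      rw [hf, MonoidHom.mem_ker.1 hβ]
      exact map_one (Perm.viaEmbeddingHom (Fin.valEmbedding (n := n + 1))))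
  exact (QuotientGroup.eq_one_iff β).1 hmain

end Pool.Agent.H764.KS
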