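import Pool.Agent.H764.KS3

/-!
# Mixed braid groups and their abelianisations
-/

set_option autoImplicit false
set_option linter.unusedSectionVars false
set_option linter.unusedSimpArgs false

namespace Pool.Agent.H764.KS

open Equiv Finset

section Mixed

variable {k : ℕ} {m : Fin k → ℕ} {n : ℕ} (e : Fin (n + 1) ≃ Σ c : Fin k, Fin (m c + 1))

/-- every braid which preserves the kinds belongs to the mixed braid group -/
theorem exists_mem (β : Braid n) (h : ∀ a, (e (bperm n β a)).1 = (e a).1) :
    ∃ y, (β, y) ∈ MixedBraid e := by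
  let ρ : Perm (Σ c : Fin k, Fin (m c + 1)) := e.permCongr (bperm n β)
  have hρ : ∀ x, (ρ x).1 = x.1 := by
    intro x
    have := h (e.symm x)
    rw [e.apply_symm_apply] at this
    exact this
  let y : ∀ c, Perm (Fin (m c + 1)) := fun c =>
    (Equiv.sigmaSubtype (β := fun c : Fin k => Fin (m c + 1)) c).permCongr
      (ρ.subtypePerm (p := fun s => s.1 = c) (fun x => by rw [hρ]))
  refine ⟨y, ?_⟩
  intro a
  have h1 : ∀ s : Σ c : Fin k, Fin (m c + 1), ρ s = ⟨s.1, y s.1 s.2⟩ := by
    intro s
    have h2 : y s.1 s.2 = Equiv.sigmaSubtype s.1 ⟨ρ s, hρ s⟩ := rfl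
    rw [h2]
    have h3 := congrArg Subtype.val
      ((Equiv.sigmaSubtype (β := fun c : Fin k => Fin (m c + 1)) s.1).symm_apply_apply
        ⟨ρ s, hρ s⟩)
    exact h3.symm
  have h2 := h1 (e a)
  have h3 : ρ (e a) = e (bperm n β a) := by
    change e (bperm n β (e.symm (e a))) = _
    rw [e.symm_apply_apply]
  rw [← h3, h2]

theorem mem_kind {x : Braid n × ∀ c, Perm (Fin (m c + 1))} (hx : x ∈ MixedBraid e)
    (a : Fin (n + 1)) : (e (bperm n x.1 a)).1 = (e a).1 := by
  rw [hx a]

theorem mem_ext {x y : MixedBraid e} (h : x.1.1 = y.1.1) : x = y := by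
  apply Subtype.ext
  apply Prod.ext h
  funext c
  ext i
  have h1 := x.2 (e.symm ⟨c, i⟩)
  have h2 := y.2 (e.symm ⟨c, i⟩)
  rw [h, h2, e.apply_symm_apply] at h1
  have := eq_of_heq (Sigma.mk.inj h1).2
  rw [this]

theorem youngPerm_eq_one {x : MixedBraid e} (h : youngPerm e x = 1) : bperm n x.1.1 = 1 := by
  ext a
  have h1 := x.2 a
  have h2 : x.1.2 = 1 := h
  rw [h2] at h1
  simp only [Pi.one_apply, Perm.one_apply] at h1
  rw [e.injective (h1 : e _ = e a)]
  rfl

/-! ### The crossing numbers -/

/-- integer-valued functions on ordered pairs of strands -/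
abbrev PF (n : ℕ) : Type := Fin (n + 1) → Fin (n + 1) → Multiplicative ℤ

/-- permutations act on the functions of pairs -/
def pairAction (n : ℕ) : Perm (Fin (n + 1)) →* MulAut (PF n) where
  toFun ρ :=
    { toFun := fun f a b => f (ρ⁻¹ a) (ρ⁻¹ b)
      invFun := fun f a b => f (ρ a) (ρ b)
      left_inv := fun f => by funext a b; simp
      right_inv := fun f => by funext a b; simp
      map_mul' := fun f g => rfl }
  map_one' := by ext f a b; simp
  map_mul' ρ τ := by ext f a b; simp [mul_inv_rev]

theorem pairAction_apply (ρ : Perm (Fin (n + 1))) (f : PF n) (a b : Fin (n + 1)) :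
    pairAction n ρ f a b = f (ρ⁻¹ a) (ρ⁻¹ b) := rfl

/-- indicator function of a pair -/
def ind (x y : Fin (n + 1)) : PF n := fun a b =>
  if a = x ∧ b = y then Multiplicative.ofAdd 1 else 1

theorem pairAction_ind (ρ : Perm (Fin (n + 1))) (x y : Fin (n + 1)) :
    pairAction n ρ (ind x y) = ind (ρ x) (ρ y) := by
  funext a b
  rw [pairAction_apply, ind, ind]
  have h1 : ∀ c d : Fin (n + 1), ρ⁻¹ c = d ↔ c = ρ d := fun c d => Perm.inv_eq_iff_eq
  simp only [h1]

theorem cross_aux1 (i j : Fin n) (h : (i : ℕ) + 1 = j) :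
    (⟨ind i.castSucc i.succ, swap i.castSucc i.succ⟩ *
      ⟨ind j.castSucc j.succ, swap j.castSucc j.succ⟩ *
      ⟨ind i.castSucc i.succ, swap i.castSucc i.succ⟩ : PF n ⋊[pairAction n] Perm (Fin (n + 1))) =
    ⟨ind j.castSucc j.succ, swap j.castSucc j.succ⟩ *
      ⟨ind i.castSucc i.succ, swap i.castSucc i.succ⟩ *
      ⟨ind j.castSucc j.succ, swap j.castSucc j.succ⟩ := by
  have e : i.succ = j.castSucc := Fin.ext h
  have h1 : i.castSucc ≠ i.succ := by rw [Ne, Fin.ext_iff]; simp
  have h2 : i.castSucc ≠ j.succ := by rw [Ne, Fin.ext_iff]; simp; omega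
  have h3 : i.succ ≠ j.succ := by rw [Ne, Fin.ext_iff]; simp; omega
  rw [← e]
  generalize i.castSucc = x at *
  generalize i.succ = y at *
  generalize j.succ = z at *
  apply SemidirectProduct.ext
  · simp only [SemidirectProduct.mul_left, SemidirectProduct.mul_right, pairAction_ind,
      Perm.mul_apply, swap_apply_left, swap_apply_right, swap_apply_of_ne_of_ne h2.symm h3.symm,
      swap_apply_of_ne_of_ne h1 h2]
    ac_rfl
  · simp only [SemidirectProduct.mul_right]
    exact swap_braid h1 h2 h3

theorem cross_aux2 (i j : Fin n) (h : (i : ℕ) + 1 < j) :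
    (⟨ind i.castSucc i.succ, swap i.castSucc i.succ⟩ *
      ⟨ind j.castSucc j.succ, swap j.castSucc j.succ⟩ : PF n ⋊[pairAction n] Perm (Fin (n + 1))) =
    ⟨ind j.castSucc j.succ, swap j.castSucc j.succ⟩ *
      ⟨ind i.castSucc i.succ, swap i.castSucc i.succ⟩ := by
  have h1 : i.castSucc ≠ j.castSucc := by rw [Ne, Fin.ext_iff]; simp; omega
  have h2 : i.castSucc ≠ j.succ := by rw [Ne, Fin.ext_iff]; simp; omega
  have h3 : i.succ ≠ j.castSucc := by rw [Ne, Fin.ext_iff]; simp; omega
  have h4 : i.succ ≠ j.succ := by rw [Ne, Fin.ext_iff]; simp; omega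
  generalize i.castSucc = x at *
  generalize i.succ = y at *
  generalize j.castSucc = z at *
  generalize j.succ = t at *
  apply SemidirectProduct.ext
  · simp only [SemidirectProduct.mul_left, SemidirectProduct.mul_right, pairAction_ind,
      swap_apply_of_ne_of_ne h1 h2, swap_apply_of_ne_of_ne h3 h4,
      swap_apply_of_ne_of_ne h1.symm h3.symm, swap_apply_of_ne_of_ne h2.symm h4.symm]
    ac_rfl
  · simp only [SemidirectProduct.mul_right]
    exact swap_far h1 h2 h3 h4

/-- The crossing cocycle. -/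
def cross (n : ℕ) : Braid n →* PF n ⋊[pairAction n] Perm (Fin (n + 1)) :=
  PresentedGroup.toGroup (f := fun i : Fin n =>
    (⟨ind i.castSucc i.succ, swap i.castSucc i.succ⟩ : PF n ⋊[pairAction n] Perm (Fin (n + 1))))
    (braid_lift _ cross_aux1 cross_aux2)

theorem cross_sig {n : ℕ} (i : Fin n) : cross n (sig i) =
    ⟨ind i.castSucc i.succ, swap i.castSucc i.succ⟩ :=
  PresentedGroup.toGroup.of _

theorem cross_right (β : Braid n) : (cross n β).right = bperm n β := by
  have h : (SemidirectProduct.rightHom).comp (cross n) = bperm n := by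
    apply PresentedGroup.ext
    intro i
    change (cross n (sig i)).right = bperm n (sig i)
    rw [cross_sig, bperm_sig]
  exact DFunLike.congr_fun h β

/-- the crossing function -/
def wt (β : Braid n) : PF n := (cross n β).left

theorem wt_mul (β γ : Braid n) : wt (β * γ) = wt β * pairAction n (bperm n β) (wt γ) := by
  rw [wt, map_mul, SemidirectProduct.mul_left, cross_right]
  rfl

theorem wt_sig (i : Fin n) : wt (sig i) = ind i.castSucc i.succ := by
  rw [wt, cross_sig]

theorem wt_one : wt (1 : Braid n) = 1 := by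
  rw [wt, map_one]
  rfl

theorem wt_inv (β : Braid n) : wt β⁻¹ = (pairAction n (bperm n β)⁻¹ (wt β))⁻¹ := by
  rw [wt, map_inv, SemidirectProduct.inv_left, cross_right, map_inv]
  rfl

theorem wt_conj (β x : Braid n) : wt (β * x * β⁻¹) =
    wt β * pairAction n (bperm n β) (wt x) *
      (pairAction n (bperm n (β * x * β⁻¹)) (wt β))⁻¹ := by
  have e1 : pairAction n (bperm n (β * x * β⁻¹)) (wt β) =
      pairAction n (bperm n (β * x)) (pairAction n (bperm n β)⁻¹ (wt β)) := by
    rw [map_mul (bperm n) (β * x), map_mul (pairAction n), MulAut.mul_apply, map_inv (bperm n)]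
  rw [wt_mul, wt_mul, wt_inv, map_inv, e1]

theorem wt_sq (i : Fin n) : wt (sig i ^ 2) =
    ind i.castSucc i.succ * ind i.succ i.castSucc := by
  rw [pow_two, wt_mul, wt_sig, bperm_sig, pairAction_ind, swap_apply_left, swap_apply_right]

/-- transposed inverse -/
def tinv (n : ℕ) : PF n →* PF n where
  toFun f a b := (f b a)⁻¹
  map_one' := by funext a b; simp
  map_mul' f g := by funext a b; simp [mul_comm]

theorem wt_mirror (β : Braid n) : wt (mirror n β) = tinv n (wt β) := by
  let F : PF n ⋊[pairAction n] Perm (Fin (n + 1)) →* PF n ⋊[pairAction n] Perm (Fin (n + 1)) :=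
    SemidirectProduct.map (tinv n) (MonoidHom.id _) (by
      intro ρ
      ext f a b
      rfl)
  have h : (cross n).comp (mirror n) = F.comp (cross n) := by
    apply PresentedGroup.ext
    intro i
    change cross n (mirror n (sig i)) = F (cross n (sig i))
    rw [mirror_sig, map_inv, cross_sig]
    apply SemidirectProduct.ext
    · rw [SemidirectProduct.inv_left]
      change pairAction n (swap _ _)⁻¹ (ind _ _)⁻¹ = tinv n (ind _ _)
      rw [map_inv, pairAction_ind, swap_inv, swap_apply_left, swap_apply_right]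
      funext a b
      change (ind _ _ a b)⁻¹ = (ind _ _ b a)⁻¹
      rw [ind, ind]
      simp only [and_comm]
    · rw [SemidirectProduct.inv_right]
      change (swap _ _)⁻¹ = swap _ _
      rw [swap_inv]
  have := DFunLike.congr_fun h β
  exact congrArg SemidirectProduct.left this

theorem bperm_mirror (β : Braid n) : bperm n (mirror n β) = bperm n β := by
  have h : (bperm n).comp (mirror n) = bperm n := by
    apply PresentedGroup.ext
    intro i
    change bperm n (mirror n (sig i)) = bperm n (sig i)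
    rw [mirror_sig, map_inv, bperm_sig, swap_inv]
  exact DFunLike.congr_fun h β

/-- sum of a function of pairs over the pairs of strands of kinds `c` and `d` -/
def blk (c d : Fin k) : PF n →* Multiplicative ℤ where
  toFun f := ∏ a, ∏ b, if (e a).1 = c ∧ (e b).1 = d then f a b else 1
  map_one' := by simp
  map_mul' f g := by
    rw [← Finset.prod_mul_distrib]
    apply Finset.prod_congr rfl
    intro a _
    rw [← Finset.prod_mul_distrib]
    apply Finset.prod_congr rfl
    intro b _
    split_ifs <;> simp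

theorem blk_apply (c d : Fin k) (f : PF n) :
    blk e c d f = ∏ a, ∏ b, if (e a).1 = c ∧ (e b).1 = d then f a b else 1 := rfl

theorem blk_ind (c d : Fin k) (x y : Fin (n + 1)) :
    blk e c d (ind x y) = if (e x).1 = c ∧ (e y).1 = d then Multiplicative.ofAdd 1 else 1 := by
  rw [blk_apply, Finset.prod_eq_single x, Finset.prod_eq_single y]
  · simp [ind]
  · intro b _ hb
    simp [ind, hb]
  · simp
  · intro a _ ha
    apply Finset.prod_eq_one
    intro b _
    simp [ind, ha]
  · simp

theorem blk_perm (c d c' d' : Fin k) (f : PF n) (ρ : Perm (Fin (n + 1)))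
    (h1 : ∀ a, (e (ρ a)).1 = c ↔ (e a).1 = c') (h2 : ∀ a, (e (ρ a)).1 = d ↔ (e a).1 = d') :
    blk e c d (pairAction n ρ f) = blk e c' d' f := by
  rw [blk_apply, blk_apply, ← Equiv.prod_comp ρ]
  apply Finset.prod_congr rfl
  intro a _
  rw [← Equiv.prod_comp ρ]
  apply Finset.prod_congr rfl
  intro b _
  simp only [h1, h2, pairAction_apply, Perm.coe_inv, Equiv.symm_apply_apply]

/-- The crossing numbers of strands of kind `c` with strands of kind `d`. -/
def cr (c d : Fin k) : MixedBraid e →* Multiplicative ℤ where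
  toFun μ := blk e c d (wt μ.1.1)
  map_one' := by
    change blk e c d (wt 1) = 1
    rw [wt_one, map_one]
  map_mul' μ ν := by
    change blk e c d (wt (μ.1.1 * ν.1.1)) = _
    rw [wt_mul, map_mul]
    congr 1
    apply blk_perm
    · intro a; rw [mem_kind e μ.2]
    · intro a; rw [mem_kind e μ.2]

theorem cr_apply (c d : Fin k) (μ : MixedBraid e) : cr e c d μ = blk e c d (wt μ.1.1) := rfl

/-- crossing numbers of conjugates -/
theorem cr_conj (c d c' d' : Fin k) (μ : MixedBraid e) (β x : Braid n) (h : μ.1.1 = β * x * β⁻¹)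
    (h1 : ∀ a, (e (bperm n β a)).1 = c ↔ (e a).1 = c')
    (h2 : ∀ a, (e (bperm n β a)).1 = d ↔ (e a).1 = d') :
    cr e c d μ = blk e c' d' (wt x) := by
  rw [cr_apply, h, wt_conj, map_mul, map_mul, map_inv, ← h, blk_perm e c d c d (wt β),
    blk_perm e c d c' d' (wt x) _ h1 h2, mul_comm, ← mul_assoc, inv_mul_cancel, one_mul]
  · intro a; rw [mem_kind e μ.2]
  · intro a; rw [mem_kind e μ.2]

theorem cr_conj' (c d : Fin k) (μ : MixedBraid e) (β x : Braid n) (h : μ.1.1 = β * x * β⁻¹) :
    cr e c d μ = blk e c d (pairAction n (bperm n β) (wt x)) := by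
  rw [cr_apply, h, wt_conj, map_mul, map_mul, map_inv, ← h, blk_perm e c d c d (wt β),
    mul_comm, ← mul_assoc, inv_mul_cancel, one_mul]
  · intro a; rw [mem_kind e μ.2]
  · intro a; rw [mem_kind e μ.2]

theorem cr_Q (c d : Fin k) (μ : MixedBraid e) (β : Braid n) (i : Fin n)
    (h : μ.1.1 = β * sig i * β⁻¹) : cr e c d μ =
      if (e (bperm n β i.castSucc)).1 = c ∧ (e (bperm n β i.succ)).1 = d then
        Multiplicative.ofAdd 1 else 1 := by
  rw [cr_conj' e c d μ β _ h, wt_sig, pairAction_ind, blk_ind]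

theorem cr_P (c d : Fin k) (μ : MixedBraid e) (β : Braid n) (i : Fin n)
    (h : μ.1.1 = β * sig i ^ 2 * β⁻¹) : cr e c d μ =
      (if (e (bperm n β i.castSucc)).1 = c ∧ (e (bperm n β i.succ)).1 = d then
        Multiplicative.ofAdd 1 else 1) *
      (if (e (bperm n β i.succ)).1 = c ∧ (e (bperm n β i.castSucc)).1 = d then
        Multiplicative.ofAdd 1 else 1) := by
  rw [cr_conj' e c d μ β _ h, wt_sq, map_mul, map_mul, pairAction_ind, pairAction_ind, blk_ind,
    blk_ind]

end Mixed

end Pool.Agent.H764.KS
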