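import Pool.Agent.H764.KS1
import Pool.Agent.H764.KS4

/-!
# Mixed braid groups: generators of the abelianisation
-/

set_option autoImplicit false
set_option linter.unusedSectionVars false

namespace Pool.Agent.H764.KS

open Equiv Finset

section Mixed

variable {k : ℕ} {m : Fin k → ℕ} {n : ℕ} (e : Fin (n + 1) ≃ Σ c : Fin k, Fin (m c + 1))

/-- a permutation which fixes all `a < b` is induced by a braid in the generators `σ_j`, `b ≤ j` -/
theorem exists_braid_fix (n : ℕ) : ∀ (t b : ℕ), b + t = n + 1 → ∀ ρ : Perm (Fin (n + 1)),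
    (∀ a : Fin (n + 1), (a : ℕ) < b → ρ a = a) →
    ∃ δ ∈ Subgroup.closure {x : Braid n | ∃ j : Fin n, b ≤ j ∧ x = sig j}, bperm n δ = ρ := by
  intro t
  induction t with
  | zero =>
    intro b hb ρ hρ
    refine ⟨1, one_mem _, ?_⟩
    rw [map_one]
    ext a
    rw [hρ a (by omega)]
    rfl
  | succ t ih =>
    intro b hb ρ hρ
    -- move the point `ρ b` to `b`
    have hmove : ∀ (v : ℕ) (hv : v < n + 1), b ≤ v →
        ∃ τ ∈ Subgroup.closure {x : Braid n | ∃ j : Fin n, b ≤ j ∧ x = sig j},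
          bperm n τ ⟨v, hv⟩ = ⟨b, by omega⟩ ∧ ∀ a : Fin (n + 1), (a : ℕ) < b → bperm n τ a = a := by
      intro v
      induction v with
      | zero =>
        intro hv hbv
        obtain rfl : b = 0 := by omega
        exact ⟨1, one_mem _, by simp, fun a ha => by simp⟩
      | succ v ihv =>
        intro hv hbv
        rcases Nat.eq_or_lt_of_le hbv with h | h
        · subst h
          exact ⟨1, one_mem _, by simp, fun a ha => by simp⟩
        · obtain ⟨τ, hτ, h1, h2⟩ := ihv (by omega) (by omega)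
          refine ⟨τ * sig ⟨v, by omega⟩, mul_mem hτ (Subgroup.subset_closure
            ⟨_, by simp; omega, rfl⟩), ?_, ?_⟩
          · rw [map_mul, Perm.mul_apply, bperm_sig]
            have e1 : (⟨v + 1, hv⟩ : Fin (n + 1)) = Fin.succ ⟨v, by omega⟩ := rfl
            rw [e1, swap_apply_right]
            exact h1
          · intro a ha
            rw [map_mul, Perm.mul_apply, bperm_sig, swap_apply_of_ne_of_ne, h2 a ha]
            · intro h; rw [h] at ha; simp at ha; omega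
            · intro h; rw [h] at ha; simp at ha; omega
    have hb' : b < n + 1 := by omega
    have hge : b ≤ (ρ ⟨b, hb'⟩ : ℕ) := by
      by_contra hlt
      have h1 := hρ _ (not_le.1 hlt)
      have h2 := ρ.injective h1
      rw [h2] at hlt
      simp at hlt
    obtain ⟨τ, hτ, h1, h2⟩ := hmove (ρ ⟨b, hb'⟩) (ρ ⟨b, hb'⟩).2 hge
    obtain ⟨δ, hδ, h3⟩ := ih (b + 1) (by omega) (bperm n τ * ρ) (by
      intro a ha
      rw [Perm.mul_apply]
      rcases Nat.lt_succ_iff_lt_or_eq.1 ha with h | h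
      · rw [hρ a h, h2 a h]
      · obtain rfl : a = ⟨b, hb'⟩ := Fin.ext h
        exact h1)
    refine ⟨τ⁻¹ * δ, mul_mem (inv_mem hτ) ?_, ?_⟩
    · refine Subgroup.closure_mono ?_ hδ
      rintro x ⟨j, hj, rfl⟩
      exact ⟨j, by omega, rfl⟩
    · rw [map_mul, map_inv, h3, inv_mul_cancel_left]

/-- move the generator to the first position -/
theorem to_zero (r : ℕ) : ∀ (v : ℕ) (hv : v < n) (β : Braid n),
    ∃ β' : Braid n, β * sig ⟨v, hv⟩ ^ r * β⁻¹ = β' * sig ⟨0, by omega⟩ ^ r * β'⁻¹ ∧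
      bperm n β' ⟨0, by omega⟩ = bperm n β (Fin.castSucc ⟨v, hv⟩) ∧
      bperm n β' ⟨1, by omega⟩ = bperm n β (Fin.succ ⟨v, hv⟩) := by
  intro v
  induction v with
  | zero =>
    intro hv β
    exact ⟨β, rfl, rfl, rfl⟩
  | succ v ih =>
    intro hv β
    obtain ⟨β', h1, h2, h3⟩ := ih (by omega) (β * (sig ⟨v, by omega⟩ * sig ⟨v + 1, hv⟩))
    have hb := sig_braid (n := n) ⟨v, by omega⟩ ⟨v + 1, hv⟩ rfl
    have hconj : sig ⟨v + 1, hv⟩ = (sig ⟨v, by omega⟩ * sig ⟨v + 1, hv⟩) * sig ⟨v, by omega⟩ *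
        (sig ⟨v, by omega⟩ * sig ⟨v + 1, hv⟩ : Braid n)⁻¹ := by
      rw [hb, mul_inv_rev]
      group
    refine ⟨β', ?_, ?_, ?_⟩
    · rw [← h1]
      conv_lhs => rw [hconj, conj_pow]
      simp only [mul_inv_rev, mul_assoc]
    · rw [h2, map_mul, map_mul, Perm.mul_apply, Perm.mul_apply, bperm_sig, bperm_sig]
      congr 1
      have e1 : (Fin.castSucc (⟨v + 1, hv⟩ : Fin n)) = Fin.succ ⟨v, by omega⟩ := rfl
      have e2 : swap (Fin.succ (⟨v, by omega⟩ : Fin n)) (Fin.succ ⟨v + 1, hv⟩)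
          (Fin.castSucc ⟨v, by omega⟩) = Fin.castSucc ⟨v, by omega⟩ := by
        apply swap_apply_of_ne_of_ne
        · rw [Ne, Fin.ext_iff]; simp
        · rw [Ne, Fin.ext_iff]; simp; omega
      rw [e1, e2, swap_apply_left]
    · rw [h3, map_mul, map_mul, Perm.mul_apply, Perm.mul_apply, bperm_sig, bperm_sig]
      congr 1
      have e1 : (Fin.castSucc (⟨v + 1, hv⟩ : Fin n)) = Fin.succ ⟨v, by omega⟩ := rfl
      rw [e1, swap_apply_left, swap_apply_of_ne_of_ne]
      · rw [Ne, Fin.ext_iff]; simp; omega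
      · rw [Ne, Fin.ext_iff]; simp

/-- Conjugates of (powers of) generators with the same kinds of strands are equal in the
abelianisation. -/
theorem conj_eq {A : Type} [CommGroup A] (φ : MixedBraid e →* A) (r : ℕ) (μ μ' : MixedBraid e)
    (β β' : Braid n) (i i' : Fin n) (h : μ.1.1 = β * sig i ^ r * β⁻¹)
    (h' : μ'.1.1 = β' * sig i' ^ r * β'⁻¹)
    (h1 : (e (bperm n β i.castSucc)).1 = (e (bperm n β' i'.castSucc)).1)
    (h2 : (e (bperm n β i.succ)).1 = (e (bperm n β' i'.succ)).1) : φ μ = φ μ' := by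
  have hn : 0 < n := lt_of_le_of_lt (Nat.zero_le _) i.2
  obtain ⟨γ, g1, g2, g3⟩ := to_zero r i i.2 β
  obtain ⟨γ', g1', g2', g3'⟩ := to_zero r i' i'.2 β'
  rw [g1] at h
  rw [g1'] at h'
  rw [← g2, ← g2'] at h1
  rw [← g3, ← g3'] at h2
  clear g1 g1' g2 g2' g3 g3'
  let z0 : Fin (n + 1) := ⟨0, by omega⟩
  let z1 : Fin (n + 1) := ⟨1, by omega⟩
  have hz : z0 ≠ z1 := by rw [Ne, Fin.ext_iff]; simp [z0, z1]
  let κ : Fin (n + 1) → Fin k := fun a => (e a).1
  have hsw : ∀ (a b : Fin (n + 1)), κ (bperm n γ' a) = κ (bperm n γ' b) → ∀ x,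
      κ (bperm n γ' (swap a b x)) = κ (bperm n γ' x) := by
    intro a b hab x
    rcases eq_or_ne x a with rfl | hxa
    · rw [swap_apply_left, hab]
    · rcases eq_or_ne x b with rfl | hxb
      · rw [swap_apply_right, hab]
      · rw [swap_apply_of_ne_of_ne hxa hxb]
  obtain ⟨ρ, r0, r1, rκ⟩ : ∃ ρ : Perm (Fin (n + 1)), ρ z0 = z0 ∧ ρ z1 = z1 ∧
      ∀ x, κ (bperm n γ' (ρ x)) = κ (bperm n γ x) := by
    let ρ0 : Perm (Fin (n + 1)) := (bperm n γ')⁻¹ * bperm n γ
    have hρ0 : ∀ x, κ (bperm n γ' (ρ0 x)) = κ (bperm n γ x) := by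
      intro x
      simp [ρ0]
    let ρ1 : Perm (Fin (n + 1)) := swap (ρ0 z0) z0 * ρ0
    have hρ1 : ∀ x, κ (bperm n γ' (ρ1 x)) = κ (bperm n γ x) := by
      intro x
      rw [← hρ0 x]
      apply hsw
      rw [hρ0]
      exact h1
    have hρ10 : ρ1 z0 = z0 := by simp [ρ1]
    let ρ2 : Perm (Fin (n + 1)) := swap (ρ1 z1) z1 * ρ1
    refine ⟨ρ2, ?_, by simp [ρ2], ?_⟩
    · simp only [ρ2, Perm.mul_apply, hρ10]
      apply swap_apply_of_ne_of_ne
      · intro h
        apply hz
        apply ρ1.injective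
        rw [hρ10]
        exact h
      · exact hz
    · intro x
      rw [← hρ1 x]
      apply hsw
      rw [hρ1]
      exact h2
  obtain ⟨δ, hδ, hδρ⟩ := exists_braid_fix n (n + 1 - 2) 2 (by omega) ρ (by
    intro a ha
    rcases Nat.lt_succ_iff_lt_or_eq.1 ha with h | h
    · obtain rfl : a = z0 := Fin.ext (show (a : ℕ) = 0 by omega)
      exact r0
    · obtain rfl : a = z1 := Fin.ext h
      exact r1)
  have hcomm : δ * sig ⟨0, hn⟩ = sig ⟨0, hn⟩ * δ := by
    have : Subgroup.closure {x : Braid n | ∃ j : Fin n, 2 ≤ (j : ℕ) ∧ x = sig j} ≤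
        Subgroup.centralizer {sig ⟨0, hn⟩} := by
      rw [Subgroup.closure_le]
      rintro x ⟨j, hj, rfl⟩
      rw [SetLike.mem_coe, Subgroup.mem_centralizer_singleton_iff]
      exact (sig_comm ⟨0, hn⟩ j (by simp; omega)).symm
    have h1 := this hδ
    rw [Subgroup.mem_centralizer_singleton_iff] at h1
    exact h1
  have hcomm' : δ * sig ⟨0, hn⟩ ^ r * δ⁻¹ = sig ⟨0, hn⟩ ^ r := by
    rw [mul_inv_eq_iff_eq_mul]
    exact (Commute.pow_right (show Commute δ (sig ⟨0, hn⟩) from hcomm) r)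
  -- the conjugating element
  obtain ⟨y, hy⟩ := exists_mem e (γ' * δ * γ⁻¹) (by
    intro a
    obtain ⟨x, rfl⟩ := (bperm n γ).surjective a
    have e1 : bperm n (γ' * δ * γ⁻¹) (bperm n γ x) = bperm n γ' (ρ x) := by
      rw [map_mul, map_mul, map_inv, hδρ]
      simp
    rw [e1]
    exact rκ x)
  let ν : MixedBraid e := ⟨(γ' * δ * γ⁻¹, y), hy⟩
  have hν : μ' = ν * μ * ν⁻¹ := by
    apply mem_ext
    change μ'.1.1 = (γ' * δ * γ⁻¹) * μ.1.1 * (γ' * δ * γ⁻¹)⁻¹
    rw [h', h]
    calc γ' * sig ⟨0, hn⟩ ^ r * γ'⁻¹ = γ' * (δ * sig ⟨0, hn⟩ ^ r * δ⁻¹) * γ'⁻¹ := by rw [hcomm']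
      _ = γ' * δ * γ⁻¹ * (γ * sig ⟨0, hn⟩ ^ r * γ⁻¹) * (γ' * δ * γ⁻¹)⁻¹ := by group
  rw [hν, map_mul, map_mul, map_inv, mul_right_comm, mul_inv_cancel, one_mul]

/-- there is a braid which moves the first two strands to two given positions -/
theorem exists_two (a b : Fin (n + 1)) (hab : a ≠ b) : ∃ (hn : 0 < n) (β : Braid n),
    bperm n β (Fin.castSucc ⟨0, hn⟩) = a ∧ bperm n β (Fin.succ ⟨0, hn⟩) = b := by
  have hn : 0 < n := by
    rcases Nat.eq_zero_or_pos n with rfl | h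
    · exact absurd (Subsingleton.elim (α := Fin 1) a b) hab
    · exact h
  refine ⟨hn, ?_⟩
  have hz : Fin.castSucc (⟨0, hn⟩ : Fin n) ≠ Fin.succ ⟨0, hn⟩ := by
    rw [Ne, Fin.ext_iff]; simp
  generalize Fin.castSucc (⟨0, hn⟩ : Fin n) = z0 at *
  generalize Fin.succ (⟨0, hn⟩ : Fin n) = z1 at *
  let ρ1 : Perm (Fin (n + 1)) := swap z0 a
  let ρ2 : Perm (Fin (n + 1)) := swap (ρ1 z1) b * ρ1
  obtain ⟨β, hβ⟩ := bperm_surj n ρ2
  refine ⟨β, ?_, ?_⟩
  · rw [hβ]
    have e1 : ρ1 z0 = a := swap_apply_left _ _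
    simp only [ρ2, Perm.mul_apply, e1]
    apply swap_apply_of_ne_of_ne
    · rw [← e1]
      intro h
      exact hz (ρ1.injective h)
    · exact hab
  · rw [hβ]
    simp [ρ2]

/-- The mixed braid group is generated by the conjugates (in the braid group) of the squares of
the generators, and the conjugates of the generators which it contains. -/
theorem hom_ext' {A : Type} [Group A] (φ ψ : MixedBraid e →* A)
    (hP : ∀ (μ : MixedBraid e) (β : Braid n) (i : Fin n), μ.1.1 = β * sig i ^ 2 * β⁻¹ →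
      φ μ = ψ μ)
    (hQ : ∀ (μ : MixedBraid e) (β : Braid n) (i : Fin n), μ.1.1 = β * sig i * β⁻¹ →
      φ μ = ψ μ) : φ = ψ := by
  -- the pure braids
  have hker : ∀ (β : Braid n) (y : ∀ c, Perm (Fin (m c + 1))) (h : (β, y) ∈ MixedBraid e),
      bperm n β = 1 → φ ⟨(β, y), h⟩ = ψ ⟨(β, y), h⟩ := by
    have hpure : ∀ β : Braid n, bperm n β = 1 → (β, (1 : ∀ c, Perm (Fin (m c + 1)))) ∈
        MixedBraid e := by
      intro β hβ a
      rw [show bperm n (β, (1 : ∀ c, Perm (Fin (m c + 1)))).1 = bperm n β from rfl, hβ]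
      rfl
    let K : Subgroup (Braid n) :=
      { carrier := {β | ∃ h : bperm n β = 1, φ ⟨(β, 1), hpure β h⟩ = ψ ⟨(β, 1), hpure β h⟩}
        one_mem' := ⟨map_one _, by
          have : (⟨(1, 1), hpure 1 (map_one _)⟩ : MixedBraid e) = 1 := rfl
          rw [this, map_one, map_one]⟩
        mul_mem' := by
          rintro x y ⟨h1, h2⟩ ⟨h3, h4⟩
          refine ⟨by rw [map_mul, h1, h3, one_mul], ?_⟩
          have : ∀ h, (⟨(x * y, 1), h⟩ : MixedBraid e) =
              ⟨(x, 1), hpure x h1⟩ * ⟨(y, 1), hpure y h3⟩ := by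
            intro h
            apply mem_ext
            rfl
          rw [this, map_mul, map_mul, h2, h4]
        inv_mem' := by
          rintro x ⟨h1, h2⟩
          refine ⟨by rw [map_inv, h1, inv_one], ?_⟩
          have : ∀ h, (⟨(x⁻¹, 1), h⟩ : MixedBraid e) = (⟨(x, 1), hpure x h1⟩)⁻¹ := by
            intro h
            apply mem_ext
            rfl
          rw [this, map_inv, map_inv, h2] }
    have hle : Subgroup.normalClosure (Set.range fun i : Fin n => (sig i : Braid n) ^ 2) ≤ K := by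
      rw [Subgroup.normalClosure, Subgroup.closure_le]
      intro x hx
      rw [Group.mem_conjugatesOfSet_iff] at hx
      obtain ⟨_, ⟨i, rfl⟩, hc⟩ := hx
      obtain ⟨β, hβ⟩ := isConj_iff.1 hc
      have h1 : bperm n x = 1 := by
        rw [← hβ, map_mul, map_mul, map_pow, bperm_sig, pow_two, swap_mul_self, map_inv]
        simp
      exact ⟨h1, hP _ β i hβ.symm⟩
    intro β y h h1
    obtain ⟨h2, h3⟩ := hle (ker_bperm n h1)
    have : (⟨(β, y), h⟩ : MixedBraid e) = ⟨(β, 1), hpure β h2⟩ := mem_ext e rfl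
    rw [this, h3]
  -- the equaliser surjects on the Young group
  let E : Subgroup (MixedBraid e) := φ.eqLocus ψ
  have hE : ∀ y : ∀ c, Perm (Fin (m c + 1)), y ∈ E.map (youngPerm e) := by
    intro y
    apply Subgroup.pi_mem_of_mulSingle_mem
    intro c
    have : (⊤ : Subgroup (Perm (Fin (m c + 1)))) ≤
        (E.map (youngPerm e)).comap (MonoidHom.mulSingle (fun c => Perm (Fin (m c + 1))) c) := by
      rw [← Perm.closure_isSwap, Subgroup.closure_le]
      rintro _ ⟨x, z, hxz, rfl⟩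
      have hab : e.symm ⟨c, x⟩ ≠ e.symm ⟨c, z⟩ := by
        intro h
        apply hxz
        have := e.symm.injective h
        exact eq_of_heq (Sigma.mk.inj this).2
      obtain ⟨hn, β, hβ1, hβ2⟩ := exists_two (e.symm ⟨c, x⟩) (e.symm ⟨c, z⟩) hab
      have hperm : bperm n (β * sig ⟨0, hn⟩ * β⁻¹) = swap (e.symm ⟨c, x⟩) (e.symm ⟨c, z⟩) := by
        rw [map_mul, map_mul, map_inv, bperm_sig, mul_inv_eq_iff_eq_mul, mul_swap_eq_swap_mul,
          hβ1, hβ2]
      have hmem : ((β * sig ⟨0, hn⟩ * β⁻¹, Pi.mulSingle c (swap x z)) :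
          Braid n × ∀ c, Perm (Fin (m c + 1))) ∈ MixedBraid e := by
        suffices key : ∀ s : Σ c : Fin k, Fin (m c + 1),
            e (swap (e.symm ⟨c, x⟩) (e.symm ⟨c, z⟩) (e.symm s)) =
              ⟨s.1, (Pi.mulSingle c (swap x z) : ∀ c, Perm (Fin (m c + 1))) s.1 s.2⟩ by
          intro a
          have := key (e a)
          rw [e.symm_apply_apply, ← hperm] at this
          exact this
        rintro ⟨c', t⟩
        by_cases hc : c' = c
        · subst hc
          rw [Pi.mulSingle_eq_same]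
          rcases eq_or_ne t x with rfl | htx
          · rw [swap_apply_left, swap_apply_left, e.apply_symm_apply]
          · rcases eq_or_ne t z with rfl | htz
            · rw [swap_apply_right, swap_apply_right, e.apply_symm_apply]
            · rw [swap_apply_of_ne_of_ne, swap_apply_of_ne_of_ne htx htz, e.apply_symm_apply]
              · intro h
                exact htx (eq_of_heq (Sigma.mk.inj (e.symm.injective h)).2)
              · intro h
                exact htz (eq_of_heq (Sigma.mk.inj (e.symm.injective h)).2)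
        · rw [Pi.mulSingle_eq_of_ne hc, Perm.one_apply, swap_apply_of_ne_of_ne,
            e.apply_symm_apply]
          · intro h
            exact hc (Sigma.mk.inj (e.symm.injective h)).1
          · intro h
            exact hc (Sigma.mk.inj (e.symm.injective h)).1
      exact ⟨⟨_, hmem⟩, hQ _ β _ rfl, rfl⟩
    exact this (Subgroup.mem_top (y c))
  ext μ
  obtain ⟨ν, hν, hνy⟩ := hE (youngPerm e μ)
  have h1 : youngPerm e (μ * ν⁻¹) = 1 := by
    rw [map_mul, map_inv, hνy, mul_inv_cancel]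
  have h2 := hker (μ * ν⁻¹).1.1 (μ * ν⁻¹).1.2 (μ * ν⁻¹).2 (youngPerm_eq_one e h1)
  have h3 : φ (μ * ν⁻¹) = ψ (μ * ν⁻¹) := h2
  have h4 : φ ν = ψ ν := hν
  rw [map_mul, map_mul, map_inv, map_inv, h4] at h3
  exact mul_right_cancel h3

end Mixed

end Pool.Agent.H764.KS
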