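import Pool.Agent.H764.KS5

/-!
# Mixed braid groups: the crossing numbers detect the abelianisation
-/

set_option autoImplicit false
set_option linter.unusedSectionVars false

namespace Pool.Agent.H764.KS

open Equiv Finset

section Mixed

variable {k : ℕ} {m : Fin k → ℕ} {n : ℕ} (e : Fin (n + 1) ≃ Σ c : Fin k, Fin (m c + 1))

theorem kind_Q (μ : MixedBraid e) (β : Braid n) (i : Fin n) (h : μ.1.1 = β * sig i * β⁻¹) :
    (e (bperm n β i.succ)).1 = (e (bperm n β i.castSucc)).1 := by
  have h1 := mem_kind e μ.2 (bperm n β i.castSucc)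
  rw [h, map_mul, map_mul, map_inv, bperm_sig] at h1
  simpa using h1

theorem exists_P (β : Braid n) (i : Fin n) : ∃ μ : MixedBraid e, μ.1.1 = β * sig i ^ 2 * β⁻¹ := by
  obtain ⟨y, hy⟩ := exists_mem e (β * sig i ^ 2 * β⁻¹) (by
    intro a
    rw [map_mul, map_mul, map_pow, bperm_sig, pow_two, swap_mul_self, map_inv]
    simp)
  exact ⟨⟨_, hy⟩, rfl⟩

theorem exists_Q (β : Braid n) (i : Fin n)
    (h : (e (bperm n β i.castSucc)).1 = (e (bperm n β i.succ)).1) :
    ∃ μ : MixedBraid e, μ.1.1 = β * sig i * β⁻¹ := by
  obtain ⟨y, hy⟩ := exists_mem e (β * sig i * β⁻¹) (by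
    intro a
    obtain ⟨b, rfl⟩ := (bperm n β).surjective a
    have e1 : bperm n (β * sig i * β⁻¹) (bperm n β b) =
        bperm n β (swap i.castSucc i.succ b) := by
      rw [map_mul, map_mul, map_inv, bperm_sig]
      simp
    rw [e1]
    rcases eq_or_ne b i.castSucc with rfl | h1
    · rw [swap_apply_left, h]
    · rcases eq_or_ne b i.succ with rfl | h2
      · rw [swap_apply_right, h]
      · rw [swap_apply_of_ne_of_ne h1 h2])
  exact ⟨⟨_, hy⟩, rfl⟩

theorem cr_symm (c d : Fin k) : cr e c d = cr e d c := by
  apply hom_ext'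
  · intro μ β i h
    rw [cr_P e c d μ β i h, cr_P e d c μ β i h, mul_comm]
    simp only [and_comm]
  · intro μ β i h
    rw [cr_Q e c d μ β i h, cr_Q e d c μ β i h, kind_Q e μ β i h]
    simp only [and_comm]

/-- The crossing numbers detect the abelianisation of the mixed braid group. -/
theorem of_eq_one {A : Type} [CommGroup A] (φ : MixedBraid e →* A) (μ : MixedBraid e)
    (hμ : ∀ c d, cr e c d μ = 1) : φ μ = 1 := by
  classical
  obtain ⟨T, hT⟩ : ∃ T : Fin k → A, ∀ (μ : MixedBraid e) (β : Braid n) (i : Fin n),
      μ.1.1 = β * sig i * β⁻¹ → φ μ = T (e (bperm n β i.castSucc)).1 := by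
    let P : Fin k → Prop := fun c => ∃ (μ : MixedBraid e) (β : Braid n) (i : Fin n),
      μ.1.1 = β * sig i * β⁻¹ ∧ (e (bperm n β i.castSucc)).1 = c
    refine ⟨fun c => if h : P c then φ h.choose else 1, ?_⟩
    intro μ β i h
    have hP : P (e (bperm n β i.castSucc)).1 := ⟨μ, β, i, h, rfl⟩
    simp only
    rw [dif_pos hP]
    obtain ⟨β', i', h', hc'⟩ := hP.choose_spec
    refine conj_eq e φ 1 μ _ β β' i i' (by rw [pow_one]; exact h) (by rw [pow_one]; exact h')
      hc'.symm ?_
    rw [kind_Q e μ β i h, kind_Q e _ β' i' h', hc']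
  obtain ⟨L, hL⟩ : ∃ L : Fin k → Fin k → A, ∀ (μ : MixedBraid e) (β : Braid n) (i : Fin n),
      μ.1.1 = β * sig i ^ 2 * β⁻¹ →
      φ μ = L (e (bperm n β i.castSucc)).1 (e (bperm n β i.succ)).1 := by
    let P : Fin k → Fin k → Prop := fun c d => ∃ (μ : MixedBraid e) (β : Braid n) (i : Fin n),
      μ.1.1 = β * sig i ^ 2 * β⁻¹ ∧ (e (bperm n β i.castSucc)).1 = c ∧
        (e (bperm n β i.succ)).1 = d
    refine ⟨fun c d => if h : P c d then φ h.choose else 1, ?_⟩
    intro μ β i h
    have hP : P (e (bperm n β i.castSucc)).1 (e (bperm n β i.succ)).1 := ⟨μ, β, i, h, rfl, rfl⟩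
    simp only
    rw [dif_pos hP]
    obtain ⟨β', i', h', hc', hd'⟩ := hP.choose_spec
    exact conj_eq e φ 2 μ _ β β' i i' h h' hc'.symm hd'.symm
  have hL' : ∀ (μ : MixedBraid e) (β : Braid n) (i : Fin n),
      μ.1.1 = β * sig i ^ 2 * β⁻¹ →
      φ μ = L (e (bperm n β i.succ)).1 (e (bperm n β i.castSucc)).1 := by
    intro μ β i h
    have h1 := hL μ (β * sig i) i (by rw [h]; group)
    rw [map_mul, bperm_sig, Perm.mul_apply, Perm.mul_apply, swap_apply_left,
      swap_apply_right] at h1
    exact h1
  let U : MixedBraid e →* A := (∏ c, (zpowersHom A (T c)).comp (cr e c c)) *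
    ∏ c, ∏ d, if c < d then (zpowersHom A (L c d)).comp (cr e c d) else 1
  have hU : ∀ μ, U μ = (∏ c, zpowersHom A (T c) (cr e c c μ)) *
      ∏ c, ∏ d, if c < d then zpowersHom A (L c d) (cr e c d μ) else 1 := by
    intro μ
    simp only [U, MonoidHom.mul_apply, MonoidHom.finsetProd_apply, MonoidHom.comp_apply]
    congr 1
    apply Finset.prod_congr rfl
    intro c _
    apply Finset.prod_congr rfl
    intro d _
    split_ifs <;> rfl
  have hφU : φ = U := by
    apply hom_ext'
    · intro μ β i h
      rw [hU]
      have hcr := fun c d => cr_P e c d μ β i h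
      simp only [hcr]
      rcases lt_trichotomy (e (bperm n β i.castSucc)).1 (e (bperm n β i.succ)).1 with hlt | heq | hgt
      · rw [hL μ β i h]
        generalize (e (bperm n β i.castSucc)).1 = c0 at *
        generalize (e (bperm n β i.succ)).1 = d0 at *
        rw [Finset.prod_eq_one, one_mul, Finset.prod_eq_single c0, Finset.prod_eq_single d0]
        · rw [if_pos hlt, if_pos ⟨rfl, rfl⟩, if_neg (by rintro ⟨h1, -⟩; exact hlt.ne' h1)]
          simp
        · intro d _ hd
          split_ifs with h1 h2 h3 h3
          · exact absurd h3.1 hlt.ne'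
          · exact absurd h2.2.symm hd
          · exact absurd h3.1 hlt.ne'
          · simp
          · rfl
        · simp
        · intro c _ hc
          apply Finset.prod_eq_one
          intro d _
          split_ifs with h1 h2 h3 h3
          · exact absurd h2.1.symm hc
          · exact absurd h2.1.symm hc
          · obtain ⟨rfl, rfl⟩ := h3
            exact absurd (hlt.trans h1) (lt_irrefl _)
          · simp
          · rfl
        · simp
        · intro c _
          rw [if_neg, if_neg]
          · simp
          · rintro ⟨h1, h2⟩; exact hlt.ne' (h1.trans h2.symm)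
          · rintro ⟨h1, h2⟩; exact hlt.ne (h1.trans h2.symm)
      · obtain ⟨ν, hν⟩ := exists_Q e β i heq
        have hμν : μ = ν * ν := by
          apply mem_ext
          change μ.1.1 = ν.1.1 * ν.1.1
          rw [h, hν, pow_two]
          group
        rw [hμν, map_mul, hT ν β i hν, ← heq]
        generalize (e (bperm n β i.castSucc)).1 = c0 at *
        rw [Finset.prod_eq_single c0]
        · rw [Finset.prod_eq_one, mul_one, if_pos ⟨rfl, rfl⟩]
          · simp [pow_two]
          · intro c _
            apply Finset.prod_eq_one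
            intro d _
            split_ifs with h1 h2
            · obtain ⟨rfl, rfl⟩ := h2
              exact absurd h1 (lt_irrefl _)
            · simp
            · rfl
        · intro c _ hc
          rw [if_neg]
          · simp
          · rintro ⟨h1, -⟩; exact hc h1.symm
        · simp
      · rw [hL' μ β i h]
        generalize (e (bperm n β i.castSucc)).1 = c0 at *
        generalize (e (bperm n β i.succ)).1 = d0 at *
        rw [Finset.prod_eq_one, one_mul, Finset.prod_eq_single d0, Finset.prod_eq_single c0]
        · rw [if_pos hgt, if_pos (show d0 = d0 ∧ c0 = c0 from ⟨rfl, rfl⟩),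
            if_neg (by rintro ⟨h1, -⟩; exact hgt.ne' h1)]
          simp
        · intro d _ hd
          split_ifs with h1 h2 h3 h3
          · exact absurd h2.1 hgt.ne'
          · exact absurd h2.1 hgt.ne'
          · exact absurd h3.2.symm hd
          · simp
          · rfl
        · simp
        · intro c _ hc
          apply Finset.prod_eq_one
          intro d _
          split_ifs with h1 h2 h3 h3
          · exact absurd h3.1.symm hc
          · obtain ⟨rfl, rfl⟩ := h2
            exact absurd (hgt.trans h1) (lt_irrefl _)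
          · exact absurd h3.1.symm hc
          · simp
          · rfl
        · simp
        · intro c _
          rw [if_neg, if_neg]
          · simp
          · rintro ⟨h1, h2⟩; exact hgt.ne (h1.trans h2.symm)
          · rintro ⟨h1, h2⟩; exact hgt.ne' (h1.trans h2.symm)
    · intro μ β i h
      rw [hU]
      have hcr := fun c d => cr_Q e c d μ β i h
      simp only [hcr]
      rw [hT μ β i h, kind_Q e μ β i h]
      generalize (e (bperm n β i.castSucc)).1 = c0 at *
      rw [Finset.prod_eq_single c0]
      · rw [Finset.prod_eq_one, mul_one, if_pos ⟨rfl, rfl⟩]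
        · simp
        · intro c _
          apply Finset.prod_eq_one
          intro d _
          split_ifs with h1 h2
          · obtain ⟨rfl, rfl⟩ := h2
            exact absurd h1 (lt_irrefl _)
          · simp
          · rfl
      · intro c _ hc
        rw [if_neg]
        · simp
        · rintro ⟨h1, -⟩; exact hc h1.symm
      · simp
  rw [hφU, hU]
  simp [hμ]

/-- The abelianisation of the mixed braid group is torsion-free. -/
theorem tf_mixed : TF (Abelianization (MixedBraid e)) := by
  intro r x hr hx
  induction x using QuotientGroup.induction_on with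
  | H μ =>
    apply of_eq_one e Abelianization.of μ
    intro c d
    apply tf_int' r _ hr
    rw [← map_pow]
    have h1 := congrArg (Abelianization.lift (cr e c d)) hx
    rw [map_one] at h1
    exact h1

/-- the permutation of the strands of each kind are arbitrary -/
theorem youngPerm_surj : Function.Surjective (youngPerm e) := by
  intro y
  have : ∃ ρ : Perm (Fin (n + 1)), ∀ a, e (ρ a) = ⟨(e a).1, y (e a).1 (e a).2⟩ := by
    refine ⟨e.symm.permCongr (Equiv.sigmaCongrRight y), ?_⟩
    intro a
    simp [Equiv.permCongr_apply]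
  obtain ⟨ρ, hρ⟩ := this
  obtain ⟨β, hβ⟩ := bperm_surj n ρ
  refine ⟨⟨(β, y), ?_⟩, rfl⟩
  intro a
  change e (bperm n β a) = _
  rw [hβ]
  exact hρ a

/-- Crossing numbers of mirror images. -/
theorem cr_mirror (bar : Perm (Fin k)) (θ : Braid n)
    (hθ : ∀ a, (e (bperm n θ a)).1 = bar (e a).1) (μ μ' : MixedBraid e)
    (h : μ'.1.1 = θ * mirror n μ.1.1 * θ⁻¹) (c d : Fin k) :
    cr e (bar c) (bar d) μ' = (cr e c d μ)⁻¹ := by
  rw [cr_conj e (bar c) (bar d) c d μ' θ _ h]
  · rw [wt_mirror, cr_symm, cr_apply, blk_apply, blk_apply, Finset.prod_comm,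
      ← Finset.prod_inv_distrib]
    apply Finset.prod_congr rfl
    intro a _
    rw [← Finset.prod_inv_distrib]
    apply Finset.prod_congr rfl
    intro b _
    by_cases h1 : (e b).1 = c ∧ (e a).1 = d
    · rw [if_pos h1, if_pos h1.symm]
      rfl
    · rw [if_neg h1, if_neg (fun h2 => h1 h2.symm), inv_one]
  · intro a
    rw [hθ]
    exact bar.injective.eq_iff
  · intro a
    rw [hθ]
    exact bar.injective.eq_iff

end Mixed

end Pool.Agent.H764.KS
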