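import Pool.Agent.H764.KS2
import Pool.Agent.H764.KS6

/-!
# Inversions, mapping tori with reversing return maps
-/

set_option autoImplicit false
set_option linter.unusedSectionVars false

namespace Pool.Agent.H764.KS

open Finset

/-- the automorphism acts trivially on a nontrivial character mod 2, and inverts in the
abelianisation an element detected by this character -/
def Inv2 {G : Type} [Group G] (s : MulAut G) : Prop :=
  ∃ χ : G →* Multiplicative (ZMod 2), (∀ g, χ (s g) = χ g) ∧
    ∃ x, χ x ≠ 1 ∧ Abelianization.of (s x * x) = 1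

/-- parity -/
def parity : Multiplicative ℤ →* Multiplicative (ZMod 2) :=
  AddMonoidHom.toMultiplicative (Int.castAddHom (ZMod 2))

theorem parity_inv (z : Multiplicative ℤ) : parity z⁻¹ = parity z := by
  rw [map_inv]
  generalize parity z = y
  revert y
  decide

theorem parity_one : parity (Multiplicative.ofAdd 1) ≠ 1 := by
  change Multiplicative.ofAdd (((1 : ℤ) : ZMod 2)) ≠ 1
  decide

theorem inv2_iso {G H : Type} [Group G] [Group H] (e : G ≃* H) (s : MulAut G) (s' : MulAut H)
    (h : ∀ g, s' (e g) = e (s g)) (hs : Inv2 s) : Inv2 s' := by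
  obtain ⟨χ, hχ, x, hx, hsx⟩ := hs
  refine ⟨χ.comp e.symm.toMonoidHom, ?_, e x, ?_, ?_⟩
  · intro y
    obtain ⟨g, rfl⟩ := e.surjective y
    rw [h]
    simp [hχ]
  · simpa using hx
  · have h1 := congrArg (Abelianization.map e.toMonoidHom) hsx
    rw [map_one, Abelianization.map_of] at h1
    rw [h, ← map_mul e]
    exact h1

theorem inv2_int (s : MulAut (Multiplicative ℤ)) (hs : ∀ x, s x = x⁻¹) : Inv2 s := by
  refine ⟨parity, fun g => by rw [hs, parity_inv], Multiplicative.ofAdd 1, parity_one, ?_⟩
  rw [hs, inv_mul_cancel, map_one]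

theorem inv2_prod {Y : Type} [Group Y] (s : MulAut (Multiplicative ℤ × Y)) (t : MulAut Y)
    (hs : ∀ z y, s (z, y) = (z⁻¹, t y)) : Inv2 s := by
  refine ⟨parity.comp (MonoidHom.fst _ _), ?_, (Multiplicative.ofAdd 1, 1), parity_one, ?_⟩
  · rintro ⟨z, y⟩
    rw [hs]
    exact parity_inv z
  · rw [hs, map_one t, Prod.mk_mul_mk, inv_mul_cancel, mul_one]
    exact map_one Abelianization.of

theorem inv2_int2 (s : MulAut (Multiplicative ℤ × Multiplicative ℤ)) (hs : ∀ x, s x = x⁻¹) :
    Inv2 s := by
  refine ⟨parity.comp (MonoidHom.fst _ _), ?_, (Multiplicative.ofAdd 1, 1), parity_one, ?_⟩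
  · rintro ⟨z, y⟩
    rw [hs]
    exact parity_inv z
  · rw [hs, inv_mul_cancel, map_one]

/-! ### Mapping tori -/

section Torus

variable {n : ℕ} {G : Fin n → Type} [∀ i, Group (G i)] (σ : Equiv.Perm (Fin n))
  {α : MulAut (∀ i, G i)} (ε : Fin n → ZMod 2)

/-- the total sign of the cycle of `i` -/
noncomputable def sgn (i : Fin n) : ZMod 2 := ∑ j ∈ range (per σ i), ε ((σ ^ j) i)

theorem sum_eps (i : Fin n) (r : ℕ) (h : (σ ^ r) i = i) (h0 : sgn σ ε i = 0) :
    ∑ j ∈ range r, ε ((σ ^ j) i) = 0 := by
  obtain ⟨q, rfl⟩ := per_dvd σ h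
  clear h
  have hq : ∀ q : ℕ, (σ ^ (per σ i * q)) i = i := by
    intro q
    induction q with
    | zero => rfl
    | succ q ih => rw [Nat.mul_succ, pow_add, Equiv.Perm.mul_apply, pow_per, ih]
  induction q with
  | zero => simp
  | succ q ih =>
    rw [Nat.mul_succ, Finset.sum_range_add, ih, zero_add]
    have : ∀ j, (σ ^ (per σ i * q + j)) i = (σ ^ j) i := by
      intro j
      rw [add_comm, pow_add, Equiv.Perm.mul_apply, hq]
    simp only [this]
    exact h0

theorem zmod2 (x : ZMod 2) : x = 0 ∨ x = 1 := by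
  revert x
  decide

/-- the map from a factor to the abelianisation of the mapping torus -/
def facMap (α : MulAut (∀ i, G i)) (i : Fin n) : Abelianization (G i) →*
    Abelianization ((∀ i, G i) ⋊[zpowersHom (MulAut (∀ i, G i)) α] Multiplicative ℤ) :=
  Abelianization.map (SemidirectProduct.inl.comp (MonoidHom.mulSingle G i))

theorem facMap_of (i : Fin n) (g : G i) : facMap α i (Abelianization.of g) =
    Abelianization.of (SemidirectProduct.inl (Pi.mulSingle i g)) := rfl

theorem of_conj {X : Type} [Group X] (c g : X) :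
    Abelianization.of (c * g * c⁻¹) = Abelianization.of g := by
  rw [map_mul, map_mul, map_inv, mul_right_comm, mul_inv_cancel, one_mul]

variable {σ}

/-- A reversing return map gives 2-torsion. -/
theorem two_of_rev (hperm : ∀ (i : Fin n) (g : G i), ∃ h : G (σ i),
      α (Pi.mulSingle i g) = Pi.mulSingle (σ i) h)
    (i : Fin n) (s : MulAut (G i)) (hs : Inv2 s) (c : G i)
    (hc : ∀ g : G i, (α ^ (per σ i)) (Pi.mulSingle i g) = Pi.mulSingle i (c * s g * c⁻¹)) :
    Two (Abelianization ((∀ i, G i) ⋊[zpowersHom (MulAut (∀ i, G i)) α] Multiplicative ℤ)) := by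
  obtain ⟨χ, hχ, x, hx, hsx⟩ := hs
  obtain ⟨T, hT, hTi⟩ := exists_detect hperm i χ (by
    intro g
    rw [hc, Pi.mulSingle_eq_same, map_mul, map_mul, map_inv, mul_right_comm, mul_inv_cancel,
      one_mul, hχ])
  refine ⟨Abelianization.of (SemidirectProduct.inl (Pi.mulSingle i x)), ?_, ?_⟩
  · exact ne_one_of_inv _ T (zpow_inv T hT) _ (by rw [hTi]; exact hx)
  · rw [pow_two]
    nth_rewrite 1 [← of_inl_pow (per σ i)]
    rw [hc, ← facMap_of, ← facMap_of, of_conj, ← map_mul, ← map_mul, hsx, map_one]

/-- An inner return map: 2-torsion of the factor gives 2-torsion. -/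
theorem two_of_child (hperm : ∀ (i : Fin n) (g : G i), ∃ h : G (σ i),
      α (Pi.mulSingle i g) = Pi.mulSingle (σ i) h)
    (i : Fin n) (c : G i)
    (hc : ∀ g : G i, (α ^ (per σ i)) (Pi.mulSingle i g) = Pi.mulSingle i (c * g * c⁻¹))
    (h : Two (Abelianization (G i))) :
    Two (Abelianization ((∀ i, G i) ⋊[zpowersHom (MulAut (∀ i, G i)) α] Multiplicative ℤ)) := by
  obtain ⟨y, hy, hy2⟩ := h
  refine ⟨facMap α i y, ?_, by rw [← map_pow, hy2, map_one]⟩
  obtain ⟨T, hT, hTi⟩ := exists_detect hperm i (Abelianization.of : G i →* _) (by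
    intro g
    rw [hc, Pi.mulSingle_eq_same, of_conj])
  induction y using QuotientGroup.induction_on with
  | H g =>
    change facMap α i (Abelianization.of g) ≠ 1
    rw [facMap_of]
    exact ne_one_of_inv _ T (zpow_inv T hT) _ (by rw [hTi]; exact hy)

end Torus

/-! ### Inversions of connected sums -/

section Sum

open SemidirectProduct

variable {k n : ℕ} (m : Fin k → ℕ) (e : Fin (n + 1) ≃ Σ c : Fin k, Fin (m c + 1))
  (G : Fin k → Type) [∀ c, Group (G c)]

/-- homomorphisms from the group of a connected sum -/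
theorem sum_hom_ext {A : Type} [Group A]
    (f g : ((∀ c, Fin (m c + 1) → G c) ⋊[youngAction m G (youngPerm e)] MixedBraid e) →* A)
    (h1 : ∀ c i x, f (inl (Pi.mulSingle c (Pi.mulSingle i x))) =
      g (inl (Pi.mulSingle c (Pi.mulSingle i x))))
    (h2 : ∀ μ, f (inr μ) = g (inr μ)) : f = g := by
  apply SemidirectProduct.hom_ext
  · apply MonoidHom.pi_ext
    intro c x
    have : ((f.comp inl).comp (MonoidHom.mulSingle (fun c => Fin (m c + 1) → G c) c)) =
        ((g.comp inl).comp (MonoidHom.mulSingle (fun c => Fin (m c + 1) → G c) c)) := by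
      apply MonoidHom.pi_ext
      intro i x
      exact h1 c i x
    exact DFunLike.congr_fun this x
  · ext μ
    exact h2 μ

theorem conj_hom {X A : Type} [Group X] [CommGroup A] (f : X →* A) {x y : X} (h : IsConj x y) :
    f x = f y := by
  obtain ⟨c, hc⟩ := isConj_iff.1 h
  rw [← hc, map_mul, map_mul, map_inv, mul_right_comm, mul_inv_cancel, one_mul]

theorem sum_inv2
    (s : MulAut ((∀ c, Fin (m c + 1) → G c) ⋊[youngAction m G (youngPerm e)] MixedBraid e))
    (bar : Equiv.Perm (Fin k)) (θ : Braid n) (hbar : ∀ c, bar (bar c) = c)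
    (hθ : ∀ a, (e (bperm n θ a)).1 = bar (e a).1)
    (h1 : ∀ c i g, ∃ j h, IsConj (s (inl (Pi.mulSingle c (Pi.mulSingle i g))))
          (inl (Pi.mulSingle (bar c) (Pi.mulSingle j h))))
    (h2 : ∀ c, bar c = c → ∃ t : MulAut (G c), Inv2 t ∧ ∀ i g, ∃ j,
          IsConj (s (inl (Pi.mulSingle c (Pi.mulSingle i g))))
          (inl (Pi.mulSingle c (Pi.mulSingle j (t g)))))
    (h3 : ∀ μ : MixedBraid e, ∃ μ' : MixedBraid e, μ'.1.1 = θ * mirror n μ.1.1 * θ⁻¹ ∧
          IsConj (s (inr μ)) (inr μ')) : Inv2 s := by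
  classical
  by_cases hc : ∃ c, bar c = c
  · obtain ⟨c, hc⟩ := hc
    obtain ⟨t, ⟨χ, hχ, x, hx, htx⟩, ht⟩ := h2 c hc
    let X : ((∀ c, Fin (m c + 1) → G c) ⋊[youngAction m G (youngPerm e)] MixedBraid e) →*
        Multiplicative (ZMod 2) :=
      SemidirectProduct.lift (blockHom m G c χ) 1 (by
        intro q
        ext g
        simp [blockHom_inv])
    have Xl : ∀ y, X (inl y) = blockHom m G c χ y := fun y => SemidirectProduct.lift_inl _ _ _ _
    have Xr : ∀ y, X (inr y) = 1 := fun y => SemidirectProduct.lift_inr _ _ _ _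
    refine ⟨X, ?_, inl (Pi.mulSingle c (Pi.mulSingle 0 x)), ?_, ?_⟩
    · have : X.comp s.toMonoidHom = X := by
        apply sum_hom_ext
        · intro d i g
          change X (s _) = X _
          by_cases hd : d = c
          · subst hd
            obtain ⟨j, hj⟩ := ht i g
            rw [conj_hom X hj, Xl, Xl, blockHom_single, blockHom_single, hχ]
          · obtain ⟨j, h, hj⟩ := h1 d i g
            rw [conj_hom X hj, Xl, Xl, blockHom_single_ne m G (Ne.symm hd),
              blockHom_single_ne m G]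
            intro h
            apply hd
            rw [← hbar d, ← h, hc]
        · intro μ
          change X (s _) = X _
          obtain ⟨μ', -, hμ⟩ := h3 μ
          rw [conj_hom X hμ, Xr, Xr]
      exact fun g => DFunLike.congr_fun this g
    · rw [Xl, blockHom_single]
      exact hx
    · obtain ⟨j, hj⟩ := ht 0 x
      rw [map_mul, conj_hom Abelianization.of hj,
        of_single_eq m G (youngPerm e) (youngPerm_surj e) c j 0, ← map_mul, ← map_mul,
        ← Pi.mulSingle_mul, ← Pi.mulSingle_mul]
      have h4 := congrArg (Abelianization.map ((inl.comp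
        ((MonoidHom.mulSingle (fun c => Fin (m c + 1) → G c) c).comp
          (MonoidHom.mulSingle (fun _ : Fin (m c + 1) => G c) 0))) :
          G c →* ((∀ c, Fin (m c + 1) → G c) ⋊[youngAction m G (youngPerm e)] MixedBraid e))) htx
      rw [map_one, Abelianization.map_of] at h4
      exact h4
  · have hc' : ∀ c, bar c ≠ c := fun c h => hc ⟨c, h⟩
    let c0 := (e 0).1
    let d0 := bar c0
    have hd0 : d0 ≠ c0 := hc' c0
    have hbd : bar d0 = c0 := hbar c0
    let X : ((∀ c, Fin (m c + 1) → G c) ⋊[youngAction m G (youngPerm e)] MixedBraid e) →*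
        Multiplicative (ZMod 2) :=
      SemidirectProduct.lift 1 (parity.comp (cr e c0 d0)) (by
        intro q
        ext g
        simp)
    have Xl : ∀ y, X (inl y) = 1 := fun y => SemidirectProduct.lift_inl _ _ _ _
    have Xr : ∀ y, X (inr y) = parity (cr e c0 d0 y) :=
      fun y => SemidirectProduct.lift_inr _ _ _ _
    obtain ⟨hn, β, hβ1, hβ2⟩ := exists_two (e.symm ⟨c0, 0⟩) (e.symm ⟨d0, 0⟩) (by
      intro h
      exact hd0 (Sigma.mk.inj (e.symm.injective h)).1.symm)
    obtain ⟨τ, hτ⟩ := exists_P e β ⟨0, hn⟩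
    have hcr : ∀ c d, cr e c d τ = (if c0 = c ∧ d0 = d then Multiplicative.ofAdd 1 else 1) *
        (if d0 = c ∧ c0 = d then Multiplicative.ofAdd 1 else 1) := by
      intro c d
      rw [cr_P e c d τ β ⟨0, hn⟩ hτ, hβ1, hβ2, e.apply_symm_apply, e.apply_symm_apply]
    refine ⟨X, ?_, inr τ, ?_, ?_⟩
    · have : X.comp s.toMonoidHom = X := by
        apply sum_hom_ext
        · intro d i g
          change X (s _) = X _
          obtain ⟨j, h, hj⟩ := h1 d i g
          rw [conj_hom X hj, Xl, Xl]
        · intro μ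
          change X (s _) = X _
          obtain ⟨μ', hμ', hμ⟩ := h3 μ
          rw [conj_hom X hμ, Xr, Xr]
          have h4 := cr_mirror e bar θ hθ μ μ' hμ' d0 c0
          rw [hbd, cr_symm e d0 c0] at h4
          rw [h4, parity_inv]
      exact fun g => DFunLike.congr_fun this g
    · rw [Xr, hcr, if_pos ⟨rfl, rfl⟩, if_neg (fun h => hd0 h.1), mul_one]
      exact parity_one
    · obtain ⟨τ', hτ', hc⟩ := h3 τ
      rw [map_mul, conj_hom Abelianization.of hc, ← map_mul, ← map_mul]
      have h4 : Abelianization.of (τ' * τ) = 1 := by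
        apply of_eq_one e
        intro c d
        have h5 := cr_mirror e bar θ hθ τ τ' hτ' (bar c) (bar d)
        rw [hbar, hbar] at h5
        rw [map_mul, h5, hcr, hcr]
        have e1 : ∀ c, c0 = bar c ↔ d0 = c := by
          intro c
          constructor
          · intro h; change bar c0 = c; rw [h, hbar]
          · intro h; rw [← h, hbd]
        have e2 : ∀ c, d0 = bar c ↔ c0 = c := by
          intro c
          constructor
          · intro h; rw [← hbd, h, hbar]
          · intro h; rw [← h]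
        simp only [e1, e2]
        rw [mul_comm (if d0 = c ∧ c0 = d then Multiplicative.ofAdd (1 : ℤ) else 1)]
        exact inv_mul_cancel _
      have h6 := congrArg (Abelianization.map (inr :
          MixedBraid e →* ((∀ c, Fin (m c + 1) → G c) ⋊[youngAction m G (youngPerm e)]
            MixedBraid e))) h4
      rw [map_one, Abelianization.map_of] at h6
      exact h6

end Sum

end Pool.Agent.H764.KS
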