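import Pool.Agent.H764.KnotDefs

/-!
# Fundamental groups of the components of the space of long knots

Let `K(f)` be the component of the long knot `f` in the space of long knots in `ℝ³`. It is
aspherical. The groups `π₁ K(f)` are given by Budney's theorem (R. Budney, *Little cubes and long
knots*, Topology 46 (2007); *Topology of knot spaces in dimension 3*, Proc. London Math. Soc. 101
(2010)), by recursion over the JSJ tree of the complement of `f`. The inductive type `KnotSpace`
below records such a tree together with the group `G = π₁ K(f)` and a set `S` of automorphisms of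
`G`: the automorphisms which are induced by the inversion of knots, if `f` is invertible (they are
well defined up to inner automorphisms, since a path from `f` to the inverted knot has to be
chosen; `S` is empty if `f` is not invertible). The inversions are needed, because they appear in
the monodromies of the hyperbolic vertices.

* Torus knots: `K(f) ≃ S¹`, the loop is the full rotation about the long axis (Gramain's loop),
  it is inverted by the inversion.
* Hyperbolic knots: `K(f) ≃ S¹ × S¹`; the fundamental group is a lattice in the translations of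
  the peripheral torus of the complement, on which the inversion acts by `-1`.
* Cables of `g`: `K(f) ≃ S¹ × K(g)`; the inversion acts by `-1` on `π₁ S¹` and by the inversion
  of `g` on `π₁ K(g)`.
* Connected sums: `K(f) ≃ Conf(ℝ², n + 1) ×_Σ ∏ K(f_i)`, with fundamental group
  `(∏_c (G c) ^ (m c + 1)) ⋊ Mixed`, where `c` runs through the isotopy classes of the prime
  summands. The inversion reflects the plane and applies the inversion to the labels: if
  `bar c` is the class of the inverses of the knots of the class `c`, it maps the factors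
  `G c` to the factors `G (bar c)`, by an inversion of `G c` if `bar c = c`, and a braid `μ` to its
  mirror image, conjugated by a fixed braid `θ` which moves the strands of kind `c` to positions
  of strands of kind `bar c`.
* Hyperbolic vertex: `K(f) ≃ S¹ × (SO₂ ×_A ∏ K(f_i))`, where the finite cyclic group `A` of
  symmetries acts on `∏ K(f_i)` through signed permutations. The second factor is the mapping
  torus of the generator `a` of `A`. It maps the strand `i` to the strand `σ i`, preserving or
  reversing the orientation according to the sign `ε i`; for `σ ^ r i = i` the power `a ^ r` acts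
  on the factor `K(f_i)` by the identity if the total sign `∑_{j < r} ε (σ ^ j i)` of the strand is
  `0`, and by the inversion if it is `1`. The first factor is the loop given by a translation of
  the peripheral torus, it is inverted by inversions.
-/

set_option autoImplicit false
set_option linter.unusedVariables false

namespace Pool.Agent.H764.KT

open Pool.Agent.H764.KS

/-- the infinite cyclic group, `π₁ S¹` -/
def Z : Type := Multiplicative ℤ

instance : Group Z := Multiplicative.group

/-- the product of `Z` and `G` -/
def ZProd (G : Type) : Type := Z × G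

instance (G : Type) [Group G] : Group (ZProd G) := Prod.instGroup

/-- automorphisms of a group -/
def Aut (G : Type) [Group G] : Type := MulAut G

/-- the value of an automorphism -/
def Aut.app {G : Type} [Group G] (s : Aut G) (g : G) : G := MulEquiv.toEquiv s g

/-- the value of the `r`-th power of an automorphism -/
def Aut.iter {G : Type} [Group G] (s : Aut G) (r : ℕ) (g : G) : G := s.app^[r] g

/-- conjugate elements -/
def Conj {G : Type} [Group G] (x y : G) : Prop := ∃ c : G, c * x * c⁻¹ = y

/-- `s` inverts `Z` and acts on `G` by an element of `S`. -/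
def ProdInversion {G : Type} [Group G] (S : Aut G → Prop) (s : Aut (ZProd G)) : Prop :=
  ∃ t : Aut G, S t ∧ ∀ (z : Z) (g : G), s.app (z, g) = (z⁻¹, t.app g)

/-! ### Connected sums -/

section Sum

variable {k n : ℕ} (m : Fin k → ℕ) (e : Fin (n + 1) ≃ Σ c : Fin k, Fin (m c + 1))
  (G : Fin k → Type) [∀ c, Group (G c)]

/-- the Young group of the permutations of the copies of each kind -/
def Young : Type := ∀ c, Equiv.Perm (Fin (m c + 1))

instance : Group (Young m) := Pi.group

/-- the permutation of the positions induced by a braid -/
def strandPerm {n : ℕ} (β : Braid n) : Equiv.Perm (Fin (n + 1)) := bperm n β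

/-- The braid induces the permutations of the strands of each kind; the strand at the position `a`
is labelled by `e a`, its kind is `(e a).1`. -/
def Induces (x : Braid n × Young m) : Prop :=
  ∀ a, e (strandPerm x.1 a) = ⟨(e a).1, x.2 (e a).1 (e a).2⟩

theorem induces_one : Induces m e 1 := by
  intro a
  rw [strandPerm, Prod.fst_one, map_one]
  rfl

theorem induces_mul (x y : Braid n × Young m) (hx : Induces m e x) (hy : Induces m e y) :
    Induces m e (x * y) := by
  intro a
  have hx' : ∀ a, e (bperm n x.1 a) = ⟨(e a).1, x.2 (e a).1 (e a).2⟩ := hx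
  have hy' : ∀ a, e (bperm n y.1 a) = ⟨(e a).1, y.2 (e a).1 (e a).2⟩ := hy
  change e (bperm n (x.1 * y.1) a) = ⟨(e a).1, x.2 (e a).1 (y.2 (e a).1 (e a).2)⟩
  rw [map_mul, Equiv.Perm.mul_apply, hx', hy']

theorem induces_inv (x : Braid n × Young m) (hx : Induces m e x) : Induces m e x⁻¹ := by
  intro a
  have hx' : ∀ a, e (bperm n x.1 a) = ⟨(e a).1, x.2 (e a).1 (e a).2⟩ := hx
  change e (bperm n (x.1)⁻¹ a) = ⟨(e a).1, (x.2 (e a).1)⁻¹ (e a).2⟩
  rw [map_inv]
  obtain ⟨b, rfl⟩ := (bperm n x.1).surjective a
  rw [hx' b]
  simp

/-- The mixed braid group: the pairs of a braid and the permutations of the strands of each kind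
which it induces. -/
def mixedSubgroup : Subgroup (Braid n × Young m) where
  carrier := {x | Induces m e x}
  one_mem' := induces_one m e
  mul_mem' := induces_mul m e _ _
  inv_mem' := induces_inv m e _

/-- The mixed braid group as a group. -/
def Mixed : Type := mixedSubgroup m e

instance : Group (Mixed m e) := Subgroup.toGroup (mixedSubgroup m e)

/-- the underlying braid -/
def Mixed.braid {m : Fin k → ℕ} {e : Fin (n + 1) ≃ Σ c : Fin k, Fin (m c + 1)}
    (μ : Mixed m e) : Braid n := μ.1.1

/-- the permutations of the strands of each kind -/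
def Mixed.perm {m : Fin k → ℕ} {e : Fin (n + 1) ≃ Σ c : Fin k, Fin (m c + 1)}
    (μ : Mixed m e) : Young m := μ.1.2

/-- `θ * (mirror image of β) * θ⁻¹` -/
def conjMirror {n : ℕ} (θ β : Braid n) : Braid n := θ * mirror n β * θ⁻¹

/-- `m c + 1` copies of `G c` for each `c` -/
def Copies : Type := ∀ c, Fin (m c + 1) → G c

instance : Group (Copies m G) := Pi.group

/-- permuting the copies -/
def permCopies (y : Young m) (g : Copies m G) : Copies m G := fun c i => g c ((y c)⁻¹ i)

/-- the automorphism of the group of the copies given by a permutation -/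
def permAut (y : Young m) : MulAut (Copies m G) where
  toFun := permCopies m G y
  invFun := permCopies m G y⁻¹
  left_inv g := funext fun c => funext fun i => congrArg (g c) (Equiv.symm_apply_apply (y c) i)
  right_inv g := funext fun c => funext fun i => congrArg (g c) (Equiv.apply_symm_apply (y c) i)
  map_mul' _ _ := rfl

theorem permAut_one : permAut m G 1 = 1 := rfl

theorem permAut_mul (y y' : Young m) : permAut m G (y * y') = permAut m G y * permAut m G y' := rfl

/-- The mixed braid group permutes the copies. -/
def permute : Mixed m e →* MulAut (Copies m G) where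
  toFun μ := permAut m G μ.perm
  map_one' := permAut_one m G
  map_mul' μ ν := permAut_mul m G μ.perm ν.perm

/-- The fundamental group of `Conf(ℝ², n + 1) ×_Σ ∏_c K(f_c) ^ (m c + 1)`, with `G c = π₁ K(f_c)`
and `Σ` the Young subgroup; the point (or strand) `a` is labelled by the copy `e a` of a knot. -/
def SumGroup : Type := SemidirectProduct (Copies m G) (Mixed m e) (permute m e G)

instance : Group (SumGroup m e G) := SemidirectProduct.instGroup

/-- the element `g` of the `i`-th factor `G c` -/
def SumGroup.fac (c : Fin k) (i : Fin (m c + 1)) (g : G c) : SumGroup m e G :=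
  SemidirectProduct.mk (fun c' i' => Pi.mulSingle (M := fun c => Fin (m c + 1) → G c) c
    (Pi.mulSingle i g) c' i') 1

/-- the element given by a braid -/
def SumGroup.ofBraid (μ : Mixed m e) : SumGroup m e G := SemidirectProduct.mk 1 μ

/-- Automorphisms induced by the inversion of the connected sum; `S c` are those of the
summands. -/
def SumInversion (S : ∀ c, Aut (G c) → Prop) (s : Aut (SumGroup m e G)) : Prop :=
  ∃ (bar : Equiv.Perm (Fin k)) (θ : Braid n),
    (∀ c, bar (bar c) = c) ∧ (∀ a, (e (strandPerm θ a)).1 = bar (e a).1) ∧
    (∀ c i g, ∃ j h, Conj (s.app (SumGroup.fac m e G c i g)) (SumGroup.fac m e G (bar c) j h)) ∧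
    (∀ c, bar c = c → ∃ t, S c t ∧ ∀ i g, ∃ j,
      Conj (s.app (SumGroup.fac m e G c i g)) (SumGroup.fac m e G c j (t.app g))) ∧
    (∀ μ : Mixed m e, ∃ μ' : Mixed m e, μ'.braid = conjMirror θ μ.braid ∧
      Conj (s.app (SumGroup.ofBraid m e G μ)) (SumGroup.ofBraid m e G μ'))

end Sum

/-! ### Hyperbolic vertices -/

section Satellite

variable {n : ℕ} (G : Fin n → Type) [∀ i, Group (G i)]

/-- the product of the groups `G i` -/
def Prods : Type := ∀ i, G i

instance : Group (Prods G) := Pi.group

/-- the element `g` of the factor `G i` -/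
def Prods.fac (i : Fin n) (g : G i) : Prods G := Pi.mulSingle i g

/-- the power of an automorphism with the exponent `z : Z` -/
def zpowAut {G : Type} [Group G] (s : Aut G) (z : Z) : MulAut G :=
  (show MulAut G from s) ^ (Multiplicative.toAdd z : ℤ)

theorem zpowAut_one {G : Type} [Group G] (s : Aut G) : zpowAut s 1 = 1 :=
  zpow_zero (show MulAut G from s)

theorem zpowAut_mul {G : Type} [Group G] (s : Aut G) (z w : Z) :
    zpowAut s (z * w) = zpowAut s z * zpowAut s w :=
  zpow_add (show MulAut G from s) _ _

/-- the action of `Z` by the powers of `α` -/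
def powers (α : Aut (Prods G)) : Z →* MulAut (Prods G) where
  toFun := zpowAut α
  map_one' := zpowAut_one α
  map_mul' := zpowAut_mul α

/-- The fundamental group of the mapping torus of a map with the induced automorphism `α`. -/
def TorusGroup (α : Aut (Prods G)) : Type := SemidirectProduct (Prods G) Z (powers G α)

instance (α : Aut (Prods G)) : Group (TorusGroup G α) := SemidirectProduct.instGroup

/-- The sign of the strand `i` for the `r`-th power of a symmetry which maps the strand `j` to the
strand `σ j` with the sign `ε j` (`0`: preserving the orientation, `1`: reversing it). -/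
def totalSign (σ : Equiv.Perm (Fin n)) (ε : Fin n → ZMod 2) (i : Fin n) (r : ℕ) : ZMod 2 :=
  ∑ j ∈ Finset.range r, ε ((σ ^ j) i)

/-- Some power of the symmetry maps a strand to itself and reverses its orientation. -/
def Reversing (σ : Equiv.Perm (Fin n)) (ε : Fin n → ZMod 2) : Prop :=
  ∃ (i : Fin n) (r : ℕ), 0 < r ∧ (σ ^ r) i = i ∧ totalSign σ ε i r = 1

/-- `α` is the automorphism of `∏ G i = π₁ (∏ K(f_i))` induced by a signed permutation of the
factors: it maps `G i` to `G (σ i)`, and if `σ ^ r` fixes `i`, then `α ^ r` acts on `G i` by an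
inner automorphism if the sign is `0`, and by an inversion, followed by an inner automorphism, if
the sign is `1`. -/
structure IsSigned (S : ∀ i, Aut (G i) → Prop) (σ : Equiv.Perm (Fin n)) (ε : Fin n → ZMod 2)
    (α : Aut (Prods G)) : Prop where
  perm : ∀ (i : Fin n) (g : G i), ∃ h : G (σ i), α.app (Prods.fac G i g) = Prods.fac G (σ i) h
  ret_zero : ∀ (i : Fin n) (r : ℕ), 0 < r → (σ ^ r) i = i → totalSign σ ε i r = 0 →
    ∃ c : G i, ∀ g : G i, α.iter r (Prods.fac G i g) = Prods.fac G i (c * g * c⁻¹)
  ret_one : ∀ (i : Fin n) (r : ℕ), 0 < r → (σ ^ r) i = i → totalSign σ ε i r = 1 →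
    ∃ s : Aut (G i), S i s ∧ ∃ c : G i, ∀ g : G i,
      α.iter r (Prods.fac G i g) = Prods.fac G i (c * s.app g * c⁻¹)

end Satellite

/-- JSJ trees of nontrivial knots `f`, with the group `G = π₁ K(f)` and a set of automorphisms of
`G` induced by inversion (empty if `f` is not invertible); see the introduction. -/
inductive KnotSpace : (G : Type) → [Group G] → (Aut G → Prop) → Type 1
  /-- groups are considered up to isomorphism -/
  | iso {G H : Type} [Group G] [Group H] {S : Aut G → Prop} (e : G ≃* H)
      (S' : Aut H → Prop) (hS : ∀ s', S' s' → ∃ s, S s ∧ ∀ g, s'.app (e g) = e (s.app g))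
      (t : KnotSpace G S) : KnotSpace H S'
  /-- torus knots, `K ≃ S¹` -/
  | torus (S : Aut Z → Prop) (hS : ∀ s, S s → ∀ x, s.app x = x⁻¹) : KnotSpace Z S
  /-- hyperbolic knots, `K ≃ S¹ × S¹` -/
  | hyperbolic (S : Aut (ZProd Z) → Prop) (hS : ∀ s, S s → ∀ x, s.app x = x⁻¹) :
      KnotSpace (ZProd Z) S
  /-- cables of `g`, `K ≃ S¹ × K(g)` -/
  | cable {G : Type} [Group G] {S : Aut G → Prop} (S' : Aut (ZProd G) → Prop)
      (hS : ∀ s, S' s → ProdInversion S s) (t : KnotSpace G S) : KnotSpace (ZProd G) S'
  /-- connected sums of `m c + 1` copies of a prime knot `f_c`, for `c : Fin k`;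
  `K ≃ Conf(ℝ², n + 1) ×_Σ ∏ K(f_c) ^ (m c + 1)` -/
  | sum {k n : ℕ} (m : Fin k → ℕ) (e : Fin (n + 1) ≃ Σ c : Fin k, Fin (m c + 1))
      (G : Fin k → Type) [∀ c, Group (G c)] (S : ∀ c, Aut (G c) → Prop)
      (S' : Aut (SumGroup m e G) → Prop) (hS : ∀ s, S' s → SumInversion m e G S s)
      (t : ∀ c, KnotSpace (G c) (S c)) : KnotSpace (SumGroup m e G) S'
  /-- a hyperbolic vertex with the knots `f_i`, `i : Fin n`, spliced into the strands;
  `K ≃ S¹ × (SO₂ ×_A ∏ K(f_i))` -/
  | satellite {n : ℕ} (G : Fin n → Type) [∀ i, Group (G i)] (S : ∀ i, Aut (G i) → Prop)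
      (σ : Equiv.Perm (Fin n)) (ε : Fin n → ZMod 2) (α : Aut (Prods G))
      (hα : IsSigned G S σ ε α) (S' : Aut (ZProd (TorusGroup G α)) → Prop)
      (hS : ∀ s, S' s → ProdInversion (fun _ => True) s)
      (t : ∀ i, KnotSpace (G i) (S i)) : KnotSpace (ZProd (TorusGroup G α)) S'

/-- Some hyperbolic vertex of the tree has a symmetry (a power of the generator of the group `A` of
the vertex) which maps a strand to itself and reverses its orientation: this holds at the root, or
at a vertex of a subtree. -/
inductive HasReversal : {G : Type} → [Group G] → {S : Aut G → Prop} → KnotSpace G S → Prop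
  /-- the symmetry at the root -/
  | root {n : ℕ} (G : Fin n → Type) [∀ i, Group (G i)] (S : ∀ i, Aut (G i) → Prop)
      (σ : Equiv.Perm (Fin n)) (ε : Fin n → ZMod 2) (α : Aut (Prods G))
      (hα : IsSigned G S σ ε α) (S' : Aut (ZProd (TorusGroup G α)) → Prop)
      (hS : ∀ s, S' s → ProdInversion (fun _ => True) s) (t : ∀ i, KnotSpace (G i) (S i))
      (h : Reversing σ ε) : HasReversal (.satellite G S σ ε α hα S' hS t)
  /-- the subtrees at a hyperbolic vertex -/
  | satellite {n : ℕ} (G : Fin n → Type) [∀ i, Group (G i)] (S : ∀ i, Aut (G i) → Prop)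
      (σ : Equiv.Perm (Fin n)) (ε : Fin n → ZMod 2) (α : Aut (Prods G))
      (hα : IsSigned G S σ ε α) (S' : Aut (ZProd (TorusGroup G α)) → Prop)
      (hS : ∀ s, S' s → ProdInversion (fun _ => True) s) (t : ∀ i, KnotSpace (G i) (S i))
      (i : Fin n) (h : HasReversal (t i)) : HasReversal (.satellite G S σ ε α hα S' hS t)
  /-- the subtrees of a connected sum -/
  | sum {k n : ℕ} (m : Fin k → ℕ) (e : Fin (n + 1) ≃ Σ c : Fin k, Fin (m c + 1))
      (G : Fin k → Type) [∀ c, Group (G c)] (S : ∀ c, Aut (G c) → Prop)
      (S' : Aut (SumGroup m e G) → Prop) (hS : ∀ s, S' s → SumInversion m e G S s)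
      (t : ∀ c, KnotSpace (G c) (S c)) (c : Fin k) (h : HasReversal (t c)) :
      HasReversal (.sum m e G S S' hS t)
  /-- the subtree of a cable -/
  | cable {G : Type} [Group G] {S : Aut G → Prop} (S' : Aut (ZProd G) → Prop)
      (hS : ∀ s, S' s → ProdInversion S s) (t : KnotSpace G S) (h : HasReversal t) :
      HasReversal (.cable S' hS t)
  /-- isomorphisms do not change the tree -/
  | iso {G H : Type} [Group G] [Group H] {S : Aut G → Prop} (e : G ≃* H)
      (S' : Aut H → Prop) (hS : ∀ s', S' s' → ∃ s, S s ∧ ∀ g, s'.app (e g) = e (s.app g))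
      (t : KnotSpace G S) (h : HasReversal t) : HasReversal (.iso e S' hS t)

/-- The long knots: `LongKnotSpace G R` holds if `G = π₁ K(f)` for a long knot `f` such that `R`
holds if and only if a symmetry of a hyperbolic vertex of its JSJ tree reverses a strand. These are
the unknot (with contractible `K`) and the nontrivial knots. -/
inductive LongKnotSpace : (G : Type) → [Group G] → Prop → Prop
  | unknot {G : Type} [Group G] (h : Subsingleton G) : LongKnotSpace G False
  | knot {G : Type} [Group G] {S : Aut G → Prop} (t : KnotSpace G S) :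
      LongKnotSpace G (HasReversal t)

end Pool.Agent.H764.KT
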