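import Pool.Agent.H764.KS7
import Pool.Agent.H764.KnotTypes

/-!
# Torsion in the abelianisations: the induction over the tree
-/

set_option autoImplicit false
set_option linter.unusedVariables false

namespace Pool.Agent.H764.KT

open Finset Pool.Agent.H764.KS

/-- the same as `HasReversal` by recursion -/
def rev {G : Type} {inst : Group G} {S : Aut G → Prop} : @KnotSpace G inst S → Prop
  | @KnotSpace.iso G H iG iH S e S' hS t => rev t
  | @KnotSpace.torus S hS => False
  | @KnotSpace.hyperbolic S hS => False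
  | @KnotSpace.cable G iG S S' hS t => rev t
  | @KnotSpace.sum k n m e G iG S S' hS t => ∃ c, rev (t c)
  | @KnotSpace.satellite n G iG S σ ε α hα S' hS t => Reversing σ ε ∨ ∃ i, rev (t i)

theorem rev_iff {G : Type} [Group G] {S : Aut G → Prop} (t : KnotSpace G S) :
    HasReversal t ↔ rev t := by
  constructor
  · intro h
    induction h with
    | root G S σ ε α hα S' hS t h => exact Or.inl h
    | satellite G S σ ε α hα S' hS t i _ ih => exact Or.inr ⟨i, ih⟩
    | sum m e G S S' hS t c _ ih => exact ⟨c, ih⟩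
    | cable S' hS t _ ih => exact ih
    | iso e S' hS t _ ih => exact ih
  · intro h
    induction t with
    | @iso G H iG iH S e S' hS t ih => exact HasReversal.iso e S' hS t (ih h)
    | torus S hS => exact h.elim
    | hyperbolic S hS => exact h.elim
    | @cable G iG S S' hS t ih => exact HasReversal.cable S' hS t (ih h)
    | @sum k n m e G iG S S' hS t ih =>
      obtain ⟨c, hc⟩ := h
      exact HasReversal.sum m e G S S' hS t c (ih c hc)
    | @satellite n G iG S σ ε α hα S' hS t ih =>
      rcases h with h | ⟨i, hi⟩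
      · exact HasReversal.root G S σ ε α hα S' hS t h
      · exact HasReversal.satellite G S σ ε α hα S' hS t i (ih i hi)

theorem iter_eq {G : Type} [Group G] (s : MulAut G) (r : ℕ) (g : G) :
    Aut.iter (G := G) s r g = (s ^ r) g := by
  induction r generalizing g with
  | zero => rfl
  | succ r ih =>
    rw [pow_succ, MulAut.mul_apply, ← ih]
    rfl

theorem conj_isConj {G : Type} [Group G] {x y : G} (h : Conj x y) : IsConj x y :=
  isConj_iff.2 h

/-- The induction over the tree. -/
theorem main {G : Type} [Group G] {S : Aut G → Prop} (t : KnotSpace G S) :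
    (¬ rev t → TF (Abelianization G)) ∧ (rev t → Two (Abelianization G)) ∧
      ∀ s : MulAut G, S s → Inv2 s := by
  induction t with
  | @iso G H iG iH S e S' hS t ih =>
    obtain ⟨h1, h2, h3⟩ := ih
    refine ⟨?_, ?_, ?_⟩
    · intro h
      exact TF.of_injective (e.symm.abelianizationCongr).toMonoidHom
        (e.symm.abelianizationCongr).injective (h1 h)
    · intro h
      obtain ⟨x, hx, hx2⟩ := h2 h
      refine ⟨e.abelianizationCongr x, ?_, by rw [← map_pow, hx2, map_one]⟩
      intro h
      exact hx (e.abelianizationCongr.map_eq_one_iff.1 h)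
    · intro s' hs'
      obtain ⟨s, hs, hss⟩ := hS s' hs'
      exact inv2_iso e s s' hss (h3 s hs)
  | torus S hS => exact ⟨fun _ => tf_int, fun h => h.elim, fun s hs => inv2_int s (hS s hs)⟩
  | hyperbolic S hS =>
    exact ⟨fun _ => TF.prod tf_int tf_int, fun h => h.elim, fun s hs => inv2_int2 s (hS s hs)⟩
  | @cable G iG S S' hS t ih =>
    obtain ⟨h1, h2, h3⟩ := ih
    refine ⟨fun h => TF.prod tf_int (h1 h), fun h => Two.prod (h2 h), ?_⟩
    intro s' hs'
    obtain ⟨s, hs, hss⟩ := hS s' hs'
    exact inv2_prod s' s hss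
  | @sum k n m e G iG S S' hS t ih =>
    refine ⟨?_, ?_, ?_⟩
    · intro h
      apply sum_tf m G (youngPerm e) (youngPerm_surj e) (tf_mixed e)
      intro c
      exact (ih c).1 (fun hc => h ⟨c, hc⟩)
    · rintro ⟨c, hc⟩
      exact sum_two m G (youngPerm e) c ((ih c).2.1 hc)
    · intro s hs
      obtain ⟨bar, θ, hbar, hθ, h1, h2, h3⟩ := hS s hs
      refine sum_inv2 m e G s bar θ hbar hθ ?_ ?_ ?_
      · intro c i g
        obtain ⟨j, h, hj⟩ := h1 c i g
        exact ⟨j, h, conj_isConj hj⟩
      · intro c hc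
        obtain ⟨t, ht, htc⟩ := h2 c hc
        refine ⟨t, (ih c).2.2 t ht, ?_⟩
        intro i g
        obtain ⟨j, hj⟩ := htc i g
        exact ⟨j, conj_isConj hj⟩
      · intro μ
        obtain ⟨μ', h, hμ⟩ := h3 μ
        exact ⟨μ', h, conj_isConj hμ⟩
  | @satellite n G iG S σ ε α hα S' hS t ih =>
    have hrev : ∀ i, sgn σ ε i = 1 → Two (Abelianization (TorusGroup G α)) := by
      intro i hi
      obtain ⟨s, hs, c, hc⟩ := hα.ret_one i (per σ i) (per_pos σ i) (pow_per σ i) hi
      refine two_of_rev hα.perm i s ((ih i).2.2 s hs) c ?_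
      intro g
      exact (iter_eq (G := Prods G) α _ _).symm.trans (hc g)
    have hinner : ∀ i, sgn σ ε i = 0 → ∃ c : G i, ∀ g : G i,
        ((show MulAut (∀ i, G i) from α) ^ (per σ i)) (Pi.mulSingle i g) =
          Pi.mulSingle i (c * g * c⁻¹) := by
      intro i hi
      obtain ⟨c, hc⟩ := hα.ret_zero i (per σ i) (per_pos σ i) (pow_per σ i) hi
      exact ⟨c, fun g => (iter_eq (G := Prods G) α _ _).symm.trans (hc g)⟩
    refine ⟨?_, ?_, ?_⟩
    · intro h
      have h0 : ∀ i, sgn σ ε i = 0 := by
        intro i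
        rcases zmod2 (sgn σ ε i) with h' | h'
        · exact h'
        · exact absurd (Or.inl ⟨i, per σ i, per_pos σ i, pow_per σ i, h'⟩) h
      apply TF.prod tf_int
      exact TF.mappingTorus hα.perm (fun i => hinner i (h0 i))
        (fun i => (ih i).1 (fun hi => h (Or.inr ⟨i, hi⟩)))
    · intro h
      apply Two.prod
      by_cases h1 : ∃ i, sgn σ ε i = 1
      · obtain ⟨i, hi⟩ := h1
        exact hrev i hi
      · have h0 : ∀ i, sgn σ ε i = 0 := by
          intro i
          rcases zmod2 (sgn σ ε i) with h' | h'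
          · exact h'
          · exact absurd ⟨i, h'⟩ h1
        rcases h with ⟨i, r, hr, hi, hs⟩ | ⟨i, hi⟩
        · rw [totalSign, sum_eps σ ε i r hi (h0 i)] at hs
          exact absurd hs (by decide)
        · obtain ⟨c, hc⟩ := hinner i (h0 i)
          exact two_of_child hα.perm i c hc ((ih i).2.1 hi)
    · intro s hs
      obtain ⟨t, -, ht⟩ := hS s hs
      exact inv2_prod s t ht

/-- The criterion for torsion. -/
theorem criterion {G : Type} [Group G] {R : Prop} (f : LongKnotSpace G R) :
    ((∃ x : Abelianization G, x ≠ 1 ∧ IsOfFinOrder x) ↔ R) ∧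
    (R → ∃ x : Abelianization G, orderOf x = 2) := by
  have h2 : ∀ {A : Type} [CommGroup A], Two A → ∃ x : A, orderOf x = 2 := by
    rintro A _ ⟨x, hx, hx2⟩
    exact ⟨x, orderOf_eq_prime hx2 hx⟩
  have h3 : ∀ {A : Type} [CommGroup A], TF A → ¬ ∃ x : A, x ≠ 1 ∧ IsOfFinOrder x := by
    rintro A _ h ⟨x, hx, hx'⟩
    exact hx (h _ x hx'.orderOf_pos (pow_orderOf_eq_one x))
  have h4 : ∀ {A : Type} [CommGroup A], (∃ x : A, orderOf x = 2) →
      ∃ x : A, x ≠ 1 ∧ IsOfFinOrder x := by
    rintro A _ ⟨x, hx⟩
    refine ⟨x, ?_, ?_⟩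
    · rintro rfl
      rw [orderOf_one] at hx
      exact absurd hx (by norm_num)
    · rw [← orderOf_pos_iff, hx]
      norm_num
  cases f with
  | unknot h =>
    have : Subsingleton (Abelianization G) :=
      (QuotientGroup.mk_surjective (s := commutator G)).subsingleton
    refine ⟨⟨?_, fun h => h.elim⟩, fun h => h.elim⟩
    rintro ⟨x, hx, -⟩
    exact hx (Subsingleton.elim _ _)
  | knot t =>
    obtain ⟨m1, m2, -⟩ := main t
    rw [rev_iff]
    refine ⟨⟨?_, fun h => h4 (h2 (m2 h))⟩, fun h => h2 (m2 h)⟩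
    intro hx
    by_contra h
    exact h3 (m1 h) hx

/-! ### A sanity check: Whitehead doubles of torus knots -/

/-- the inversion of `Z` -/
def invZ : MulAut (Prods (fun _ : Fin 1 => Z)) where
  toFun x i := (x i)⁻¹
  invFun x i := (x i)⁻¹
  left_inv x := funext fun i => inv_inv (x i)
  right_inv x := funext fun i => inv_inv (x i)
  map_mul' x y := funext fun i => mul_inv (α := Multiplicative ℤ) (x i) (y i)

theorem invZ_iter (r : ℕ) (x : Prods (fun _ : Fin 1 => Z)) :
    ((r : ZMod 2) = 0 → Aut.iter (G := Prods (fun _ : Fin 1 => Z)) invZ r x = x) ∧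
    ((r : ZMod 2) = 1 → Aut.iter (G := Prods (fun _ : Fin 1 => Z)) invZ r x = invZ x) := by
  rw [iter_eq]
  induction r with
  | zero => exact ⟨fun _ => rfl, fun h => absurd h (by decide)⟩
  | succ r ih =>
    rw [pow_succ', MulAut.mul_apply]
    push_cast
    rcases zmod2 (r : ZMod 2) with h | h
    · rw [h, ih.1 h]
      exact ⟨fun h => absurd h (by decide), fun _ => rfl⟩
    · rw [h, ih.2 h]
      exact ⟨fun _ => invZ.symm_apply_apply x, fun h => absurd h (by decide)⟩

theorem invZ_fac (i : Fin 1) (g : Z) :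
    invZ (Prods.fac (fun _ => Z) i g) = Prods.fac (fun _ => Z) i g⁻¹ := by
  funext j
  obtain rfl : j = i := Subsingleton.elim _ _
  change ((Pi.mulSingle j g : ∀ _ : Fin 1, Multiplicative ℤ) j)⁻¹ =
    (Pi.mulSingle j g⁻¹ : ∀ _ : Fin 1, Multiplicative ℤ) j
  simp

/-- Sanity check: a hyperbolic vertex with one strand, into which a torus knot is spliced, and with
the group `A` of order two generated by a symmetry which reverses the strand (as for Whitehead
doubles of torus knots) is a tree with a reversal. -/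
theorem exists_reversal :
    ∃ t : KnotSpace (ZProd (TorusGroup (fun _ : Fin 1 => Z) invZ)) (fun _ => False),
      HasReversal t := by
  let S : ∀ i : Fin 1, Aut Z → Prop := fun _ s => ∀ x, s.app x = x⁻¹
  have hsign : ∀ (i : Fin 1) (r : ℕ), totalSign 1 (fun _ => 1) i r = (r : ZMod 2) := by
    intro i r
    simp [totalSign]
  have hα : IsSigned (fun _ : Fin 1 => Z) S 1 (fun _ => 1) invZ := by
    refine ⟨?_, ?_, ?_⟩
    · intro i g
      exact ⟨g⁻¹, invZ_fac i g⟩
    · intro i r _ _ h
      rw [hsign] at h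
      exact ⟨1, fun g => by rw [(invZ_iter r _).1 h, one_mul, inv_one, mul_one]⟩
    · intro i r _ _ h
      rw [hsign] at h
      refine ⟨MulEquiv.inv (Multiplicative ℤ), fun x => rfl, 1, fun g => ?_⟩
      rw [(invZ_iter r _).2 h, invZ_fac, one_mul, inv_one, mul_one]
      rfl
  refine ⟨.satellite (fun _ => Z) S 1 (fun _ => 1) invZ hα (fun _ => False) (fun s hs => hs.elim)
    (fun i => .torus (S i) (fun s hs x => hs x)), ?_⟩
  apply HasReversal.root
  exact ⟨0, 1, one_pos, rfl, by rw [hsign]; rfl⟩

end Pool.Agent.H764.KT
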