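import Mathlib

/-!
# Braid groups

`Braid n` is the braid group on `n + 1` strands (Artin's presentation), `bperm n` the permutation
of the positions, `mirror n` the mirror image `σ_i ↦ σ_i⁻¹`.
-/

set_option autoImplicit false

namespace Pool.Agent.H764.KS

open Equiv

/-- Artin's relations for the braid group on `n + 1` strands. -/
def braidRels (n : ℕ) : Set (FreeGroup (Fin n)) :=
  {r | (∃ i j : Fin n, (i : ℕ) + 1 = j ∧
        r = FreeGroup.of i * FreeGroup.of j * FreeGroup.of i *
          (FreeGroup.of j * FreeGroup.of i * FreeGroup.of j)⁻¹) ∨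
      (∃ i j : Fin n, (i : ℕ) + 1 < j ∧
        r = FreeGroup.of i * FreeGroup.of j * (FreeGroup.of j * FreeGroup.of i)⁻¹)}

/-- The braid group on `n + 1` strands, `π₁ (Conf (ℝ², n + 1) / Σ_{n + 1})` (Artin). -/
abbrev Braid (n : ℕ) : Type := PresentedGroup (braidRels n)

/-- The generators. -/
def sig {n : ℕ} (i : Fin n) : Braid n := PresentedGroup.of i

theorem sig_braid {n : ℕ} (i j : Fin n) (h : (i : ℕ) + 1 = j) :
    sig i * sig j * sig i = sig j * sig i * sig j := by
  have h1 : (PresentedGroup.mk (braidRels n)) (FreeGroup.of i * FreeGroup.of j * FreeGroup.of i *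
          (FreeGroup.of j * FreeGroup.of i * FreeGroup.of j)⁻¹) = 1 :=
    PresentedGroup.one_of_mem (Or.inl ⟨i, j, h, rfl⟩)
  rw [map_mul, map_inv, mul_inv_eq_one, map_mul, map_mul, map_mul, map_mul] at h1
  exact h1

theorem sig_comm {n : ℕ} (i j : Fin n) (h : (i : ℕ) + 1 < j) :
    sig i * sig j = sig j * sig i := by
  have h1 : (PresentedGroup.mk (braidRels n)) (FreeGroup.of i * FreeGroup.of j *
          (FreeGroup.of j * FreeGroup.of i)⁻¹) = 1 :=
    PresentedGroup.one_of_mem (Or.inr ⟨i, j, h, rfl⟩)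
  rw [map_mul, map_inv, mul_inv_eq_one, map_mul, map_mul] at h1
  exact h1

/-- Homomorphisms out of the braid group. -/
theorem braid_lift {n : ℕ} {G : Type} [Group G] (x : Fin n → G)
    (h1 : ∀ i j : Fin n, (i : ℕ) + 1 = j → x i * x j * x i = x j * x i * x j)
    (h2 : ∀ i j : Fin n, (i : ℕ) + 1 < j → x i * x j = x j * x i) :
    ∀ r ∈ braidRels n, FreeGroup.lift x r = 1 := by
  rintro r (⟨i, j, hij, rfl⟩ | ⟨i, j, hij, rfl⟩)
  · simp only [map_mul, map_inv, FreeGroup.lift_apply_of]
    rw [mul_inv_eq_one]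
    exact h1 i j hij
  · simp only [map_mul, map_inv, FreeGroup.lift_apply_of]
    rw [mul_inv_eq_one]
    exact h2 i j hij

theorem swap_braid {α : Type} [DecidableEq α] {x y z : α} (hxy : x ≠ y) (hxz : x ≠ z)
    (hyz : y ≠ z) : swap x y * swap y z * swap x y = swap y z * swap x y * swap y z := by
  rw [swap_mul_swap_mul_swap hxy hxz]
  have := swap_mul_swap_mul_swap (x := z) (y := y) (z := x) hyz.symm hxz.symm
  rw [swap_comm y x, swap_comm z y] at this
  rw [this, swap_comm]

theorem swap_far {α : Type} [DecidableEq α] {x y z t : α} (hxz : x ≠ z) (hxt : x ≠ t)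
    (hyz : y ≠ z) (hyt : y ≠ t) : swap x y * swap z t = swap z t * swap x y := by
  rw [Equiv.mul_swap_eq_swap_mul, swap_apply_of_ne_of_ne hxz.symm hyz.symm,
    swap_apply_of_ne_of_ne hxt.symm hyt.symm]

/-- The permutation of the strands. -/
def bperm (n : ℕ) : Braid n →* Perm (Fin (n + 1)) :=
  PresentedGroup.toGroup (f := fun i : Fin n => swap i.castSucc i.succ) (braid_lift _
    (fun i j h => by
      have e : i.succ = j.castSucc := Fin.ext h
      rw [e]
      apply swap_braid
      · rw [Ne, Fin.ext_iff]; simp; omega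
      · rw [Ne, Fin.ext_iff]; simp; omega
      · rw [Ne, Fin.ext_iff]; simp)
    (fun i j h => by
      apply swap_far
      · rw [Ne, Fin.ext_iff]; simp; omega
      · rw [Ne, Fin.ext_iff]; simp; omega
      · rw [Ne, Fin.ext_iff]; simp; omega
      · rw [Ne, Fin.ext_iff]; simp; omega))

theorem bperm_sig {n : ℕ} (i : Fin n) : bperm n (sig i) = swap i.castSucc i.succ :=
  PresentedGroup.toGroup.of _

/-- The mirror image of a braid: `σ_i ↦ σ_i⁻¹`. -/
def mirror (n : ℕ) : Braid n →* Braid n :=
  PresentedGroup.toGroup (f := fun i : Fin n => (sig i)⁻¹) (braid_lift _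
    (fun i j h => by
      rw [← mul_inv_rev, ← mul_inv_rev, ← mul_inv_rev, ← mul_inv_rev, ← mul_assoc, ← mul_assoc,
        sig_braid i j h])
    (fun i j h => by rw [← mul_inv_rev, ← mul_inv_rev, sig_comm i j h]))

theorem mirror_sig {n : ℕ} (i : Fin n) : mirror n (sig i) = (sig i)⁻¹ :=
  PresentedGroup.toGroup.of _

end Pool.Agent.H764.KS
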