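import Pool.Agent.H770.GS.TE
import Pool.Agent.H770.GS.TA1
import Pool.Agent.H331.GSgauss
import Pool.Agent.H385.GSrepr
import Pool.Agent.H154.GSn3reg

/-!
# Project TE, subtask TE7: the smoothed kernel of the triple `{z, x, x}` with `√2 x ≤ z ≤ √3 x`
(variant of `Pool.Agent.H969.TCtriple1.triple1`)
-/

set_option autoImplicit false

open MeasureTheory Set intervalIntegral

namespace Pool.Agent.H764.TEtriple3

open Pool.Agent.Helper82.GC
open Pool.Agent.H770.GS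

theorem one (h3 : ∀ r c : ℝ, 1 ≤ r → r ≤ 3 / 2 → 1 ≤ c → 2 ≤ c ^ 2 → c ^ 2 ≤ 3 → P 0 (n3 r c))
    {r c τ : ℝ} (hr : 1 ≤ r) (hr3 : r ≤ 3 / 2) (hc1 : 1 ≤ c) (hc2 : 2 ≤ c ^ 2) (hc3 : c ^ 2 ≤ 3)
    (hτ : 0 < τ) :
    P 0 (cv r c (cv r 1 (cv r 1 (kg τ)))) := by
  have hc : 0 < c := lt_of_lt_of_le one_pos hc1
  have hr0 : 0 < r := lt_of_lt_of_le one_pos hr
  obtain ⟨C, hC⟩ := (Pool.Agent.H154.TA.t_n3reg r c hr0 hc).2.2
  have h := Pool.Agent.H331.TA.gauss (n3 r c) C (h3 r c hr hr3 hc1 hc2 hc3) hC τ hτ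
  have e : cv r c (cv r 1 (cv r 1 (kg τ))) = fun v => ∫ u, gs τ u * n3 r c (v + u) := by
    ext v
    exact Pool.Agent.H385.GSrepr.repr r c τ hr0 hc hτ v
  rw [e]
  exact h

/-- **TE7** -/
theorem triple3 : S_triple3 := by
  intro h3 r x z τ hr hr3 hx hxz hzx hzx3 hτ
  have hz : 0 < z := lt_of_lt_of_le hx hxz
  apply P_scale hx
  have e1 : (fun v => cv r z (cv r x (cv r x (kg τ))) (x * v)) =
      fun v => (x ^ 2)⁻¹ * cv r (z / x) (cv r 1 (cv r 1 (kg (τ / x)))) v := by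
    have ez : z = x * (z / x) := by field_simp
    have a1 : (fun v => cv r x (kg τ) (x * v)) = fun v => (x ^ 2)⁻¹ * cv r 1 (kg (τ / x)) v := by
      ext v
      conv_lhs => rw [show cv r x (kg τ) = cv r (x * 1) (kg τ) by rw [mul_one]]
      rw [cv_scale]
      simp only [kg_scale hτ hx]
      rw [cv_smul]
    have a2 : (fun v => cv r x (cv r x (kg τ)) (x * v)) =
        fun v => (x ^ 2)⁻¹ * cv r 1 (cv r 1 (kg (τ / x))) v := by
      ext v
      conv_lhs => rw [show cv r x (cv r x (kg τ)) = cv r (x * 1) (cv r x (kg τ)) by rw [mul_one]]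
      rw [cv_scale, a1, cv_smul]
    ext v
    conv_lhs => rw [ez]
    rw [cv_scale, a2, cv_smul]
  rw [e1]
  apply P_smul (by positivity)
  refine one h3 hr hr3 ?_ ?_ ?_ (by positivity)
  · rw [le_div_iff₀ hx]
    linarith
  · rw [div_pow, le_div_iff₀ (by positivity)]
    exact hzx
  · rw [div_pow, div_le_iff₀ (by positivity)]
    exact hzx3

end Pool.Agent.H764.TEtriple3
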